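import Mathlib

/-!
# Equivalences of the Hadamard matrices of two quadratic maps

For a quadratic map `G` from a finite vector space `V` over `F_2` to `F_2 ^ 6` let `h_G` be the
function `s ⬝ w + t v + ∑ i, G v i * w_j w_k` of the rows `(v, s)` and the columns `(w, t)`. An
equivalence of the matrices `(-1) ^ h_G` and `(-1) ^ h_G'` gives a linear bijection of `V` that
preserves the zeros of the polar forms.
-/

set_option autoImplicit false
set_option linter.unusedSectionVars false

namespace Pool.Agent.N616.HD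

open Module

/-- the field with two elements -/
abbrev F2 : Type := ZMod 2

/-- the small space -/
abbrev U : Type := Fin 4 → ZMod 2

/-- the pairs of coordinates -/
def pr : Fin 6 → Fin 4 × Fin 4 := ![(0, 1), (0, 2), (0, 3), (1, 2), (1, 3), (2, 3)]

/-- the products of two coordinates -/
def QU (w : U) (i : Fin 6) : F2 := w (pr i).1 * w (pr i).2

/-- the polar form of the products -/
def bU (w w' : U) (i : Fin 6) : F2 := w (pr i).1 * w' (pr i).2 + w' (pr i).1 * w (pr i).2

theorem add_self2 (x : F2) : x + x = 0 := CharTwo.add_self_eq_zero x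

theorem QU_four (w1 w2 w3 : U) (i : Fin 6) :
    QU w1 i + QU w2 i + QU w3 i + QU (w1 + w2 + w3) i = bU (w1 + w3) (w2 + w3) i := by
  simp only [QU, bU, Pi.add_apply]
  generalize w1 (pr i).1 = a
  generalize w1 (pr i).2 = b
  generalize w2 (pr i).1 = c
  generalize w2 (pr i).2 = d
  generalize w3 (pr i).1 = e
  generalize w3 (pr i).2 = f
  revert a b c d e f
  decide

theorem U2 : ∀ w w' : U, w ≠ w' → ∃ w'' : U, ∃ i, bU (w + w'') (w' + w'') i ≠ 0 := by
  intro w w' h
  have key : ∀ u : U, u ≠ 0 → ∃ z : U, ∃ i, bU u z i ≠ 0 := by decide +kernel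
  obtain ⟨z, i, hz⟩ := key (w + w') (by
    intro h0
    apply h
    have h1 : w + w' + w' = w' := by rw [h0, zero_add]
    rwa [add_assoc, CharTwo.add_self_eq_zero, add_zero] at h1)
  refine ⟨w' + z, i, ?_⟩
  have e1 : w' + (w' + z) = z := by rw [← add_assoc, CharTwo.add_self_eq_zero, zero_add]
  have e2 : w + (w' + z) = (w + w') + z := by rw [add_assoc]
  rw [e1, e2]
  have e3 : bU (w + w' + z) z i = bU (w + w') z i := by
    simp only [bU, Pi.add_apply]
    generalize w (pr i).1 + w' (pr i).1 = a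
    generalize w (pr i).2 + w' (pr i).2 = b
    generalize z (pr i).1 = c
    generalize z (pr i).2 = d
    revert a b c d
    decide
  rw [e3]
  exact hz

theorem U3 (γ : Fin 6 → F2) (h : ∀ w w' : U, ∑ i, γ i * bU w w' i = 0) : γ = 0 := by
  have key : ∀ i : Fin 6, ∃ w w' : U, ∀ j, bU w w' j = if j = i then 1 else 0 := by decide +kernel
  funext i
  obtain ⟨w, w', hw⟩ := key i
  have h1 := h w w'
  simp only [hw, mul_ite, mul_one, mul_zero, Finset.sum_ite_eq', Finset.mem_univ, if_true] at h1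
  exact h1

theorem bU_of_QU (γ : Fin 6 → F2) (s : U) (c : F2)
    (h : ∀ w : U, s ⬝ᵥ w + ∑ i, γ i * QU w i = c) : γ = 0 := by
  apply U3
  intro w w'
  have h1 := h w
  have h2 := h w'
  have h3 := h 0
  have h4 := h (w + w' + 0)
  have e : ∀ i, QU w i + QU w' i + QU 0 i + QU (w + w' + 0) i = bU (w + 0) (w' + 0) i :=
    fun i => QU_four w w' 0 i
  have h5 : ∑ i, γ i * bU w w' i = ∑ i, γ i * QU w i + ∑ i, γ i * QU w' i + ∑ i, γ i * QU 0 i +
      ∑ i, γ i * QU (w + w' + 0) i := by
    rw [← Finset.sum_add_distrib, ← Finset.sum_add_distrib, ← Finset.sum_add_distrib]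
    refine Finset.sum_congr rfl fun i _ => ?_
    rw [← mul_add, ← mul_add, ← mul_add, e i, add_zero, add_zero]
  have h6 : s ⬝ᵥ w + s ⬝ᵥ w' + s ⬝ᵥ (0 : U) + s ⬝ᵥ (w + w' + 0) = 0 := by
    rw [add_zero, dotProduct_add, dotProduct_zero, add_zero, CharTwo.add_self_eq_zero]
  have h7 : (s ⬝ᵥ w + ∑ i, γ i * QU w i) + (s ⬝ᵥ w' + ∑ i, γ i * QU w' i) +
      (s ⬝ᵥ (0 : U) + ∑ i, γ i * QU 0 i) + (s ⬝ᵥ (w + w' + 0) + ∑ i, γ i * QU (w + w' + 0) i) =
      c + c + c + c := by rw [h1, h2, h3, h4]
  have h8 : c + c + c + c = 0 := by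
    rw [CharTwo.add_self_eq_zero, zero_add, CharTwo.add_self_eq_zero]
  rw [h8] at h7
  rw [h5]
  linear_combination h7 - h6

end Pool.Agent.N616.HD
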