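import Pool.Agent.N616.HD.Abs

/-!
# Equivalences of the Hadamard matrices of two quadratic maps: the theorem
-/

set_option autoImplicit false
set_option linter.unusedSectionVars false

namespace Pool.Agent.N616.HD

open Module

variable {V : Type} [AddCommGroup V] [Module F2 V]

/-- the exponents of the matrix of the map `G` -/
def hF (G : V → Fin 6 → F2) (r : V × U) (k : U × Dual F2 V) : F2 :=
  r.2 ⬝ᵥ k.1 + k.2 r.1 + ∑ i, G r.1 i * QU k.1 i

/-- `ω` is the polar form of `G` -/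
def Polar (G : V → Fin 6 → F2) (ω : V →ₗ[F2] V →ₗ[F2] (Fin 6 → F2)) : Prop :=
  ∀ v v', G (v + v') = G v + G v' + ω v v'

theorem two0 : (2 : F2) = 0 := rfl

theorem vadd_self (v : V) : v + v = 0 := by
  have h : (2 : F2) • v = v + v := two_smul F2 v
  rw [← h, two0, zero_smul]

namespace Polar

variable {G : V → Fin 6 → F2} {ω : V →ₗ[F2] V →ₗ[F2] (Fin 6 → F2)} (hG : Polar G ω)

include hG

theorem zero : G 0 = 0 := by
  have h := hG 0 0
  rw [map_zero, add_zero, add_zero] at h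
  rw [vadd_self] at h
  exact h

theorem self (v : V) : ω v v = 0 := by
  have h := hG v v
  rw [vadd_self, hG.zero, vadd_self, zero_add] at h
  exact h.symm

theorem symm (v v' : V) : ω v v' = ω v' v := by
  have h := hG.self (v + v')
  rw [map_add, map_add, LinearMap.add_apply, LinearMap.add_apply, hG.self, hG.self, zero_add,
    add_zero] at h
  -- h : ω v' v + ω v v' = 0 or similar
  have h2 : ω v v' + (ω v' v + ω v v') = ω v v' := by
    rw [h, add_zero]
  rw [add_comm (ω v' v), ← add_assoc, vadd_self, zero_add] at h2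
  exact h2.symm

theorem four (v1 v2 v3 : V) :
    G v1 + G v2 + G v3 + G (v1 + v2 + v3) = ω (v1 + v3) (v2 + v3) := by
  rw [hG (v1 + v2) v3, hG v1 v2, map_add ω v1 v3, LinearMap.add_apply, map_add (ω v1),
    map_add (ω v3), hG.self v3, add_zero, map_add ω v1 v2, LinearMap.add_apply, hG.symm v3 v2]
  have h : ∀ a : Fin 6 → F2, a + a = 0 := fun a => vadd_self a
  have e : G v1 + G v2 + G v3 + (G v1 + G v2 + ω v1 v2 + G v3 + (ω v1 v3 + ω v2 v3)) =
      (G v1 + G v1) + (G v2 + G v2) + (G v3 + G v3) + (ω v1 v2 + ω v1 v3 + ω v2 v3) := by abel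
  rw [e, h (G v1), h (G v2), h (G v3), add_zero, add_zero, zero_add]

end Polar

theorem dot_ext (w : U) (c : F2) (h : ∀ s : U, s ⬝ᵥ w = c) : w = 0 := by
  have h0 := h 0
  rw [zero_dotProduct] at h0
  funext i
  have h1 := h (Pi.single i 1)
  rw [single_one_dotProduct, ← h0] at h1
  exact h1

section

variable [Finite V] {G G' : V → Fin 6 → F2} {ω ω' : V →ₗ[F2] V →ₗ[F2] (Fin 6 → F2)}

theorem hF_zero_left (hG' : Polar G' ω') (s : U) (k : U × Dual F2 V) :
    hF G' (0, s) k = s ⬝ᵥ k.1 := by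
  show s ⬝ᵥ k.1 + k.2 0 + ∑ i, G' 0 i * QU k.1 i = _
  rw [map_zero, hG'.zero]
  simp

theorem colClass (hG' : Polar G' ω')
    (N1 : ∀ γ : Fin 6 → F2, γ ≠ 0 → ∃ v v', ∑ i, γ i * ω' v v' i ≠ 0)
    (ρ : V × U ≃ V × U) (κ : U × Dual F2 V ≃ U × Dual F2 V) (e : V × U → F2)
    (d : U × Dual F2 V → F2) (h : ∀ r k, hF G' (ρ r) (κ k) = hF G r k + e r + d k)
    (k k' : U × Dual F2 V) (hk : k.1 = k'.1) : (κ k).1 = (κ k').1 := by
  by_contra hne
  obtain ⟨w'', i0, hi0⟩ := U2 _ _ hne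
  obtain ⟨k2, hk2⟩ : ∃ k2, κ k2 = (w'', 0) := ⟨κ.symm (w'', 0), κ.apply_symm_apply _⟩
  obtain ⟨k3, hk3⟩ : ∃ k3 : U × Dual F2 V, k3 = (k2.1, k.2 + k'.2 + k2.2) := ⟨_, rfl⟩
  have hsum : ∀ r, hF G r k + hF G r k' + hF G r k2 + hF G r k3 = 0 := by
    intro r
    rw [hk3]
    unfold hF
    rw [← hk]
    simp only [LinearMap.add_apply]
    linear_combination (r.2 ⬝ᵥ k.1 + k.2 r.1 + k'.2 r.1 + k2.2 r.1 + r.2 ⬝ᵥ k2.1 +
      ∑ i, G r.1 i * QU k.1 i + ∑ i, G r.1 i * QU k2.1 i) * two0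
  have hR : ∀ R, hF G' R (κ k) + hF G' R (κ k') + hF G' R (κ k2) + hF G' R (κ k3) =
      d k + d k' + d k2 + d k3 := by
    intro R
    obtain ⟨r, rfl⟩ := ρ.surjective R
    rw [h, h, h, h]
    linear_combination hsum r + 2 * e r * two0
  set K := κ k with hK
  set K' := κ k' with hK'
  have hw : K.1 + K'.1 + (κ k2).1 + (κ k3).1 = 0 := by
    refine dot_ext _ (d k + d k' + d k2 + d k3) fun s => ?_
    have h1 := hR (0, s)
    rw [hF_zero_left hG', hF_zero_left hG', hF_zero_left hG', hF_zero_left hG'] at h1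
    rw [dotProduct_add, dotProduct_add, dotProduct_add]
    exact h1
  have hd0 : d k + d k' + d k2 + d k3 = 0 := by
    have h1 := hR (0, 0)
    rw [hF_zero_left hG', hF_zero_left hG', hF_zero_left hG', hF_zero_left hG'] at h1
    simp only [zero_dotProduct, add_zero] at h1
    exact h1.symm
  rw [hk2] at hw hR
  have hw3 : (κ k3).1 = K.1 + K'.1 + w'' := by
    have h1 : K.1 + K'.1 + w'' + ((κ k3).1 + (κ k3).1) = (κ k3).1 := by
      rw [← add_assoc, hw, zero_add]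
    rw [vadd_self, add_zero] at h1
    exact h1.symm
  obtain ⟨γ, hγ⟩ : ∃ γ : Fin 6 → F2, γ = bU (K.1 + w'') (K'.1 + w'') := ⟨_, rfl⟩
  have hγ0 : γ ≠ 0 := by
    intro h0
    apply hi0
    rw [← hγ, h0]
    rfl
  have hlin : ∀ v : V, ∑ i, γ i * G' v i = (K.2 + K'.2 + (κ k3).2) v := by
    intro v
    have h1 := hR (v, 0)
    rw [hd0] at h1
    unfold hF at h1
    simp only [zero_dotProduct, zero_add, LinearMap.zero_apply] at h1
    rw [hw3] at h1
    have h2 : ∑ i, γ i * G' v i = ∑ i, G' v i * QU K.1 i + ∑ i, G' v i * QU K'.1 i +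
        ∑ i, G' v i * QU w'' i + ∑ i, G' v i * QU (K.1 + K'.1 + w'') i := by
      rw [← Finset.sum_add_distrib, ← Finset.sum_add_distrib, ← Finset.sum_add_distrib]
      refine Finset.sum_congr rfl fun i _ => ?_
      rw [hγ, ← QU_four]
      ring
    rw [h2]
    simp only [LinearMap.add_apply]
    linear_combination h1 - (K.2 v + K'.2 v + (κ k3).2 v) * two0
  obtain ⟨v, v', hv⟩ := N1 γ hγ0
  apply hv
  have h1 := hlin (v + v')
  rw [map_add, ← hlin v, ← hlin v', hG' v v'] at h1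
  simp only [Pi.add_apply, mul_add, Finset.sum_add_distrib] at h1
  linear_combination h1

theorem rowClass (hG' : Polar G' ω') (N2 : ∀ u : V, u ≠ 0 → ∃ z, ω' u z ≠ 0)
    (ρ : V × U ≃ V × U) (κ : U × Dual F2 V ≃ U × Dual F2 V) (e : V × U → F2)
    (d : U × Dual F2 V → F2) (h : ∀ r k, hF G' (ρ r) (κ k) = hF G r k + e r + d k)
    (r r' : V × U) (hr : r.1 = r'.1) : (ρ r).1 = (ρ r').1 := by
  by_contra hne
  have hu : (ρ r).1 + (ρ r').1 ≠ 0 := by
    intro h0
    apply hne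
    have h1 : (ρ r).1 + (ρ r').1 + (ρ r').1 = (ρ r').1 := by rw [h0, zero_add]
    rwa [add_assoc, vadd_self, add_zero] at h1
  obtain ⟨z, hz⟩ := N2 _ hu
  obtain ⟨r2, hr2⟩ : ∃ r2, ρ r2 = ((ρ r').1 + z, 0) := ⟨ρ.symm _, ρ.apply_symm_apply _⟩
  obtain ⟨r3, hr3⟩ : ∃ r3 : V × U, r3 = (r2.1, r.2 + r'.2 + r2.2) := ⟨_, rfl⟩
  have hsum : ∀ k, hF G r k + hF G r' k + hF G r2 k + hF G r3 k = 0 := by
    intro k
    rw [hr3]
    unfold hF
    rw [← hr]
    simp only [add_dotProduct]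
    linear_combination (r.2 ⬝ᵥ k.1 + r'.2 ⬝ᵥ k.1 + r2.2 ⬝ᵥ k.1 + k.2 r.1 + k.2 r2.1 +
      ∑ i, G r.1 i * QU k.1 i + ∑ i, G r2.1 i * QU k.1 i) * two0
  have hR : ∀ K, hF G' (ρ r) K + hF G' (ρ r') K + hF G' (ρ r2) K + hF G' (ρ r3) K =
      e r + e r' + e r2 + e r3 := by
    intro K
    obtain ⟨k, rfl⟩ := κ.surjective K
    rw [h, h, h, h]
    linear_combination hsum k + 2 * d k * two0
  set R := ρ r with hRr
  set R' := ρ r' with hRr'
  rw [hr2] at hR
  -- columns with `w = 0`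
  have hQ0 : ∀ i, QU 0 i = 0 := fun i => by simp [QU]
  have hv : ∀ t : Dual F2 V, t (R.1 + R'.1 + (R'.1 + z) + (ρ r3).1) = e r + e r' + e r2 + e r3 := by
    intro t
    have h1 := hR (0, t)
    unfold hF at h1
    simp only [dotProduct_zero, hQ0, mul_zero, Finset.sum_const_zero, add_zero, zero_add] at h1
    rw [map_add, map_add, map_add]
    exact h1
  have he0 : e r + e r' + e r2 + e r3 = 0 := by
    rw [← hv 0, LinearMap.zero_apply]
  have hv0 : R.1 + R'.1 + (R'.1 + z) + (ρ r3).1 = 0 := by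
    refine (Module.forall_dual_apply_eq_zero_iff F2 _).1 fun t => ?_
    rw [hv t, he0]
  have hv3 : (ρ r3).1 = R.1 + R'.1 + (R'.1 + z) := by
    have h1 : R.1 + R'.1 + (R'.1 + z) + ((ρ r3).1 + (ρ r3).1) = (ρ r3).1 := by
      rw [← add_assoc, hv0, zero_add]
    rw [vadd_self, add_zero] at h1
    exact h1.symm
  have hγ : G' R.1 + G' R'.1 + G' (R'.1 + z) + G' (ρ r3).1 = ω' (R.1 + R'.1) z := by
    rw [hv3, hG'.four]
    have e1 : R'.1 + (R'.1 + z) = z := by rw [← add_assoc, vadd_self, zero_add]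
    have e2 : R.1 + (R'.1 + z) = (R.1 + R'.1) + z := by rw [add_assoc]
    rw [e1, e2, map_add ω' (R.1 + R'.1) z, LinearMap.add_apply, hG'.self z, add_zero]
  apply hz
  rw [← hγ]
  refine bU_of_QU _ (R.2 + R'.2 + 0 + (ρ r3).2) 0 fun w => ?_
  have h1 := hR (w, 0)
  unfold hF at h1
  simp only [LinearMap.zero_apply, add_zero] at h1
  rw [he0] at h1
  simp only [Pi.add_apply, add_mul, Finset.sum_add_distrib, add_dotProduct, zero_dotProduct,
    add_zero] at h1 ⊢
  linear_combination h1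

end

end Pool.Agent.N616.HD
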