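import Pool.Agent.N616.HD.Abs2

/-!
# Equivalences of the Hadamard matrices of two quadratic maps: the linear bijection
-/

set_option autoImplicit false
set_option linter.unusedSectionVars false

namespace Pool.Agent.N616.HD

open Module

variable {V : Type} [AddCommGroup V] [Module F2 V] [Finite V]
  {G G' : V → Fin 6 → F2} {ω ω' : V →ₗ[F2] V →ₗ[F2] (Fin 6 → F2)}

theorem hF_cols (G : V → Fin 6 → F2) (r : V × U) (w : U) (t t' : Dual F2 V) :
    hF G r (w, t) + hF G r (w, t') = (t + t') r.1 := by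
  unfold hF
  simp only [LinearMap.add_apply]
  linear_combination (r.2 ⬝ᵥ w + ∑ i, G r.1 i * QU w i) * two0

theorem hF_rows (G : V → Fin 6 → F2) (k : U × Dual F2 V) (v : V) (s s' : U) :
    hF G (v, s) k + hF G (v, s') k = (s + s') ⬝ᵥ k.1 := by
  unfold hF
  simp only [add_dotProduct]
  linear_combination (k.2 v + ∑ i, G v i * QU k.1 i) * two0

theorem main_abs (hG : Polar G ω) (hG' : Polar G' ω')
    (N1 : ∀ γ : Fin 6 → F2, γ ≠ 0 → ∃ v v', ∑ i, γ i * ω' v v' i ≠ 0)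
    (N2 : ∀ u : V, u ≠ 0 → ∃ z, ω' u z ≠ 0)
    (ρ : V × U ≃ V × U) (κ : U × Dual F2 V ≃ U × Dual F2 V) (e : V × U → F2)
    (d : U × Dual F2 V → F2) (h : ∀ r k, hF G' (ρ r) (κ k) = hF G r k + e r + d k) :
    ∃ L : V ≃+ V, ∀ v v', ω v v' = 0 ↔ ω' (L v) (L v') = 0 := by
  classical
  have hcol := colClass hG' N1 ρ κ e d h
  have hrow := rowClass hG' N2 ρ κ e d h
  obtain ⟨rb, hrb⟩ : ∃ rb : V → V, ∀ v, rb v = (ρ (v, 0)).1 := ⟨_, fun _ => rfl⟩
  obtain ⟨kb, hkb⟩ : ∃ kb : U → U, ∀ w, kb w = (κ (w, 0)).1 := ⟨_, fun _ => rfl⟩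
  have hrb' : ∀ r, (ρ r).1 = rb r.1 := fun r => by
    rw [hrb]
    exact hrow _ _ rfl
  have hkb' : ∀ k, (κ k).1 = kb k.1 := fun k => by
    rw [hkb]
    exact hcol _ _ rfl
  have rb_surj : Function.Surjective rb := fun v => by
    refine ⟨(ρ.symm (v, 0)).1, ?_⟩
    rw [← hrb', Equiv.apply_symm_apply]
  have kb_surj : Function.Surjective kb := fun w => by
    refine ⟨(κ.symm (w, 0)).1, ?_⟩
    rw [← hkb', Equiv.apply_symm_apply]
  have rb_inj : Function.Injective rb := Finite.injective_iff_surjective.2 rb_surj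
  have kb_inj : Function.Injective kb := Finite.injective_iff_surjective.2 kb_surj
  -- Step C
  have stepC : ∀ v1 v2 v3 : V, rb v1 + rb v2 + rb v3 + rb (v1 + v2 + v3) = 0 := by
    intro v1 v2 v3
    refine (Module.forall_dual_apply_eq_zero_iff F2 _).1 fun T => ?_
    obtain ⟨k, hk⟩ : ∃ k, κ k = (kb 0, (κ (0, 0)).2 + T) := ⟨κ.symm _, κ.apply_symm_apply _⟩
    have hk1 : k.1 = 0 := by
      apply kb_inj
      rw [← hkb', hk]
    have hcc : ∀ v, T (rb v) = k.2 v + d (0, 0) + d k := by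
      intro v
      have h1 := h (v, 0) (0, 0)
      have h2 := h (v, 0) k
      have h3 := hF_cols G' (ρ (v, 0)) (kb 0) (κ (0, 0)).2 ((κ (0, 0)).2 + T)
      have h4 := hF_cols G (v, 0) 0 0 k.2
      have e1 : ((kb 0, (κ (0, 0)).2) : U × Dual F2 V) = κ (0, 0) := by
        rw [hkb]
      have e2 : ((0, k.2) : U × Dual F2 V) = k := by
        rw [← hk1]
      have e3 : (κ (0, 0)).2 + ((κ (0, 0)).2 + T) = T := by
        rw [← add_assoc, vadd_self, zero_add]
      rw [e1, ← hk, h1, h2, e3, hrb' (v, 0)] at h3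
      rw [e2, zero_add] at h4
      have h5 : T (rb v) = hF G (v, 0) (0, 0) + hF G (v, 0) k + d (0, 0) + d k := by
        rw [← h3]
        linear_combination e (v, 0) * two0
      rw [h5]
      have h6 : hF G (v, 0) (0, 0) + hF G (v, 0) k = k.2 v := h4
      rw [h6]
    rw [map_add, map_add, map_add, hcc, hcc, hcc, hcc, map_add, map_add]
    linear_combination (k.2 v1 + k.2 v2 + k.2 v3 + 2 * d (0, 0) + 2 * d k) * two0
  have stepD : ∀ w1 w2 w3 : U, kb w1 + kb w2 + kb w3 + kb (w1 + w2 + w3) = 0 := by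
    intro w1 w2 w3
    refine dot_ext _ 0 fun S => ?_
    obtain ⟨r, hr⟩ : ∃ r, ρ r = (rb 0, (ρ (0, 0)).2 + S) := ⟨ρ.symm _, ρ.apply_symm_apply _⟩
    have hr1 : r.1 = 0 := by
      apply rb_inj
      rw [← hrb', hr]
    have hcc : ∀ w, S ⬝ᵥ kb w = r.2 ⬝ᵥ w + e (0, 0) + e r := by
      intro w
      have h1 := h (0, 0) (w, 0)
      have h2 := h r (w, 0)
      have h3 := hF_rows G' (κ (w, 0)) (rb 0) (ρ (0, 0)).2 ((ρ (0, 0)).2 + S)
      have h4 := hF_rows G (w, 0) 0 0 r.2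
      have e1 : ((rb 0, (ρ (0, 0)).2) : V × U) = ρ (0, 0) := by
        rw [hrb]
      have e2 : ((0, r.2) : V × U) = r := by
        rw [← hr1]
      have e3 : (ρ (0, 0)).2 + ((ρ (0, 0)).2 + S) = S := by
        rw [← add_assoc, vadd_self, zero_add]
      rw [e1, ← hr, h1, h2, e3, hkb' (w, 0)] at h3
      rw [e2, zero_add] at h4
      have h5 : S ⬝ᵥ kb w = hF G (0, 0) (w, 0) + hF G r (w, 0) + e (0, 0) + e r := by
        rw [← h3]
        linear_combination d (w, 0) * two0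
      rw [h5]
      have h6 : hF G (0, 0) (w, 0) + hF G r (w, 0) = r.2 ⬝ᵥ w := h4
      rw [h6]
    rw [dotProduct_add, dotProduct_add, dotProduct_add, hcc, hcc, hcc, hcc, dotProduct_add,
      dotProduct_add]
    linear_combination (r.2 ⬝ᵥ w1 + r.2 ⬝ᵥ w2 + r.2 ⬝ᵥ w3 + 2 * e (0, 0) + 2 * e r) * two0
  -- the additive maps
  have rb3 : ∀ v1 v2 v3 : V, rb (v1 + v2 + v3) = rb v1 + rb v2 + rb v3 := by
    intro v1 v2 v3
    have h1 := stepC v1 v2 v3
    have h2 : rb v1 + rb v2 + rb v3 + rb (v1 + v2 + v3) + rb (v1 + v2 + v3) =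
        rb (v1 + v2 + v3) := by rw [h1, zero_add]
    rw [add_assoc, vadd_self, add_zero] at h2
    exact h2.symm
  have kb3 : ∀ w1 w2 w3 : U, kb (w1 + w2 + w3) = kb w1 + kb w2 + kb w3 := by
    intro w1 w2 w3
    have h1 := stepD w1 w2 w3
    have h2 : kb w1 + kb w2 + kb w3 + kb (w1 + w2 + w3) + kb (w1 + w2 + w3) =
        kb (w1 + w2 + w3) := by rw [h1, zero_add]
    rw [add_assoc, vadd_self, add_zero] at h2
    exact h2.symm
  let Lh : V →+ V := AddMonoidHom.mk' (fun v => rb v + rb 0) (by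
    intro a b
    have h1 := rb3 a b 0
    rw [add_zero] at h1
    show rb (a + b) + rb 0 = rb a + rb 0 + (rb b + rb 0)
    rw [h1]
    abel)
  have Lbij : Function.Bijective Lh := by
    constructor
    · intro a b hab
      exact rb_inj (add_right_cancel (b := rb 0) hab)
    · intro b
      obtain ⟨a, ha⟩ := rb_surj (b + rb 0)
      refine ⟨a, ?_⟩
      show rb a + rb 0 = b
      rw [ha, add_assoc, vadd_self, add_zero]
  have Psurj : ∀ u : U, ∃ w, kb w + kb 0 = u := by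
    intro u
    obtain ⟨a, ha⟩ := kb_surj (u + kb 0)
    refine ⟨a, ?_⟩
    rw [ha, add_assoc, vadd_self, add_zero]
  -- Step E
  have hfac : ∀ (g : V → Fin 6 → F2) (v1 v2 v3 v4 : V) (w1 w2 w3 w4 : U),
      ∑ i, (g v1 i + g v2 i + g v3 i + g v4 i) * (QU w1 i + QU w2 i + QU w3 i + QU w4 i) =
      (∑ i, g v1 i * QU w1 i + ∑ i, g v1 i * QU w2 i + ∑ i, g v1 i * QU w3 i +
        ∑ i, g v1 i * QU w4 i) +
      (∑ i, g v2 i * QU w1 i + ∑ i, g v2 i * QU w2 i + ∑ i, g v2 i * QU w3 i +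
        ∑ i, g v2 i * QU w4 i) +
      (∑ i, g v3 i * QU w1 i + ∑ i, g v3 i * QU w2 i + ∑ i, g v3 i * QU w3 i +
        ∑ i, g v3 i * QU w4 i) +
      (∑ i, g v4 i * QU w1 i + ∑ i, g v4 i * QU w2 i + ∑ i, g v4 i * QU w3 i +
        ∑ i, g v4 i * QU w4 i) := by
    intro g v1 v2 v3 v4 w1 w2 w3 w4
    simp only [← Finset.sum_add_distrib]
    refine Finset.sum_congr rfl fun i _ => ?_
    ring
  have stepE : ∀ (v v' : V) (w w' : U),
      ∑ i, ω' (Lh v) (Lh v') i * bU (kb w + kb 0) (kb w' + kb 0) i =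
      ∑ i, ω v v' i * bU w w' i := by
    intro v v' w w'
    have e1 : ∀ i, ω' (Lh v) (Lh v') i = G' (rb v) i + G' (rb v') i + G' (rb 0) i +
        G' (rb (v + v' + 0)) i := by
      intro i
      have h1 := hG'.four (rb v) (rb v') (rb 0)
      rw [← rb3] at h1
      exact (congrFun h1 i).symm
    have e2 : ∀ i, ω v v' i = G v i + G v' i + G 0 i + G (v + v' + 0) i := by
      intro i
      have h1 := hG.four v v' 0
      have h2 : ω (v + 0) (v' + 0) i = ω v v' i := by rw [add_zero, add_zero]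
      rw [← h2, ← h1]
      rfl
    have e3 : ∀ i, bU (kb w + kb 0) (kb w' + kb 0) i = QU (kb w) i + QU (kb w') i + QU (kb 0) i +
        QU (kb (w + w' + 0)) i := by
      intro i
      rw [kb3, QU_four]
    have e4 : ∀ i, bU w w' i = QU w i + QU w' i + QU 0 i + QU (w + w' + 0) i := by
      intro i
      rw [QU_four, add_zero, add_zero]
    simp only [e1, e2, e3, e4]
    rw [hfac, hfac]
    have hh : ∀ (a : V) (b : U), ∑ i, G' (rb a) i * QU (kb b) i =
        (ρ (a, 0)).2 ⬝ᵥ kb b + (κ (b, 0)).2 (rb a) + ∑ i, G a i * QU b i + e (a, 0) + d (b, 0) := by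
      intro a b
      have h1 := h (a, 0) (b, 0)
      unfold hF at h1
      simp only [zero_dotProduct, LinearMap.zero_apply, zero_add] at h1
      rw [hrb' (a, 0), hkb' (b, 0)] at h1
      linear_combination h1 - ((ρ (a, 0)).2 ⬝ᵥ kb b + (κ (b, 0)).2 (rb a)) * two0
    have hS : ∀ a : V, (ρ (a, 0)).2 ⬝ᵥ kb w + (ρ (a, 0)).2 ⬝ᵥ kb w' + (ρ (a, 0)).2 ⬝ᵥ kb 0 +
        (ρ (a, 0)).2 ⬝ᵥ kb (w + w' + 0) = 0 := by
      intro a
      rw [← dotProduct_add, ← dotProduct_add, ← dotProduct_add, stepD, dotProduct_zero]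
    have hT : ∀ b : U, (κ (b, 0)).2 (rb v) + (κ (b, 0)).2 (rb v') + (κ (b, 0)).2 (rb 0) +
        (κ (b, 0)).2 (rb (v + v' + 0)) = 0 := by
      intro b
      rw [← map_add, ← map_add, ← map_add, stepC, map_zero]
    simp only [hh]
    linear_combination hS v + hS v' + hS 0 + hS (v + v' + 0) + hT w + hT w' + hT 0 +
      hT (w + w' + 0) + 2 * (e (v, 0) + e (v', 0) + e (0, 0) + e (v + v' + 0, 0) + d (w, 0) +
        d (w', 0) + d (0, 0) + d (w + w' + 0, 0)) * two0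
  refine ⟨AddEquiv.ofBijective Lh Lbij, fun v v' => ?_⟩
  show ω v v' = 0 ↔ ω' (Lh v) (Lh v') = 0
  constructor
  · intro h0
    apply U3
    intro u u'
    obtain ⟨w, rfl⟩ := Psurj u
    obtain ⟨w', rfl⟩ := Psurj u'
    rw [stepE, h0]
    simp
  · intro h0
    apply U3
    intro w w'
    rw [← stepE, h0]
    simp

end Pool.Agent.N616.HD
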