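import Pool.Agent.N616.HD.NonEq
import Pool.Agent.TH658.Sos.ImGrp
import Pool.Agent.Q245.STS.Wl

/-!
# The affine system of the two Hadamard matrices
-/

set_option autoImplicit false
set_option linter.unusedSectionVars false

namespace Pool.Agent.N616.HD

open Module Pool.Agent.W185.SRG Pool.Agent.W879.GW
open Pool.Agent.TH658.Sos (Sys Act instX cB cB_add om_eq)

section

variable {F A : Type} [Field F] [AddCommGroup A] [Module F A] {g : ℕ}
  [FiniteDimensional F A] {q : Fin g → (Dual F A →ₗ[F] A)}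

/-- The constraints as homomorphisms. -/
noncomputable def th {B : Submodule F (Fin g → Dual F A)}
    (ξ : Dual F (A → Fin g → F)) : (A →ₗ[F] B) →+ F :=
  AddMonoidHom.mk' (fun Z => ξ (Q (cB Z))) fun Z Z' => by
    rw [cB_add, map_add, map_add]

theorem th_apply {B : Submodule F (Fin g → Dual F A)}
    (ξ : Dual F (A → Fin g → F)) (Z : A →ₗ[F] B) : th ξ Z = ξ (Q (cB Z)) := rfl

/-- The maps with the constraints of the levels. -/
noncomputable def hdSys [Finite A] (halt : ∀ (i : Fin g) (φ : Dual F A), φ (q i φ) = 0) {K : ℕ}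
    (hE : Expands q (4 * K)) (B : Submodule F (Fin g → Dual F A))
    (hB : B = LinearMap.ker (tot q)) (f : A → Fin g → F)
    (φ₀ : Dual F A) (c₀ : Fin g → Dual F A) (hf : f = Q (φ₀.smulRight c₀)) :
    Sys (A →ₗ[F] B) (Submodule F A) where
  N W :=
    { carrier := {Z | ∀ x ∈ W, ∀ i y, Pool.Agent.TH658.Sos.om x i y Z = 0}
      add_mem' := fun {Z Z'} h h' x hx i y => by
        rw [map_add, h x hx, h' x hx, add_zero]
      zero_mem' := fun x _ i y => map_zero _
      neg_mem' := fun {Z} h x hx i y => by rw [map_neg, h x hx, neg_zero] }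
  D W :=
    { carrier := {Z | ∀ ξ, InD q K ξ W → th ξ Z = 0}
      add_mem' := fun {Z Z'} h h' ξ hξ => by
        rw [map_add, h ξ hξ, h' ξ hξ, add_zero]
      zero_mem' := fun ξ _ => map_zero _
      neg_mem' := fun {Z} h ξ hξ => by
        rw [map_neg, h ξ hξ, neg_zero] }
  Sol W := {M | ∀ ξ, InD q K ξ W → th ξ M = ξ f}
  size W := finrank F W
  K := K
  N_anti W W' h Z hZ x hx := hZ x (h hx)
  D_anti W W' h Z hZ ξ hξ := hZ ξ (hξ.mono h)
  Sol_anti W W' h M hM ξ hξ := hM ξ (hξ.mono h)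
  sol_iff W M M' hM := by
    constructor
    · intro hM' ξ hξ
      rw [map_sub, hM ξ hξ, hM' ξ hξ, sub_self]
    · intro h ξ hξ
      have h1 := h ξ hξ
      rw [map_sub, hM ξ hξ] at h1
      exact sub_eq_zero.1 h1
  size_bot := finrank_bot F A
  size_sup W W' := Submodule.finrank_add_le_finrank_add_finrank W W'
  nonempty W hW := by
    obtain ⟨M₁, h1, h2, h3⟩ := extend halt hE f ⊥ W hW 0 (fun x => by simp) (fun ξ hξ => by
      rw [hf]
      exact start halt hE φ₀ c₀ ξ hξ)
    have h1' : ∀ x, M₁ x ∈ B := by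
      intro x
      rw [hB]
      exact h1 x
    refine ⟨LinearMap.codRestrict B M₁ h1', fun ξ hξ => ?_⟩
    have h4 : cB (LinearMap.codRestrict B M₁ h1') = M₁ := by
      ext x
      rfl
    rw [th_apply, h4]
    exact h3 ξ hξ
  extend W W' h hW' M hM := by
    have hBm : ∀ c ∈ B, tot q c = 0 := by
      intro c hc
      rw [hB] at hc
      exact LinearMap.mem_ker.1 hc
    obtain ⟨M₁, h1, h2, h3⟩ := Pool.Agent.N616.HD.extend halt hE f W W' hW' (cB M)
      (fun x => hBm _ (M x).2) hM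
    have h1' : ∀ x, M₁ x ∈ B := by
      intro x
      rw [hB]
      exact h1 x
    have h4 : cB (LinearMap.codRestrict B M₁ h1') = M₁ := by
      ext x
      rfl
    refine ⟨LinearMap.codRestrict B M₁ h1', fun ξ hξ => ?_, fun x hx i y => ?_⟩
    · rw [th_apply, h4]
      exact h3 ξ hξ
    · rw [map_sub, sub_eq_zero, Pool.Agent.TH658.Sos.om_apply, Pool.Agent.TH658.Sos.om_apply]
      have h5 : ((LinearMap.codRestrict B M₁ h1') x : Fin g → Dual F A) = M₁ x := rfl
      rw [h5, h2 x hx]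
      rfl

/-- Functionals on `B` are sums of evaluations. -/
theorem exists_xs (B : Submodule F (Fin g → Dual F A)) (τ : Dual F B) :
    ∃ xs : Fin g → A, ∀ c : B, τ c = ∑ i, (c : Fin g → Dual F A) i (xs i) := by
  classical
  obtain ⟨σ, hσ⟩ := Subspace.dualRestrict_surjective (W := B) τ
  refine ⟨fun i => (Module.evalEquiv F A).symm (σ ∘ₗ LinearMap.single F (fun _ => Dual F A) i),
    fun c => ?_⟩
  rw [← hσ]
  show σ (c : Fin g → Dual F A) = _
  have h1 : ∀ i, (c : Fin g → Dual F A) i ((Module.evalEquiv F A).symm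
      (σ ∘ₗ LinearMap.single F (fun _ => Dual F A) i)) =
      σ (Pi.single i ((c : Fin g → Dual F A) i)) := by
    intro i
    have h2 : (Module.evalEquiv F A) ((Module.evalEquiv F A).symm
        (σ ∘ₗ LinearMap.single F (fun _ => Dual F A) i)) ((c : Fin g → Dual F A) i) =
        σ (Pi.single i ((c : Fin g → Dual F A) i)) := by
      rw [LinearEquiv.apply_symm_apply]
      rfl
    exact h2
  rw [Finset.sum_congr rfl fun i _ => h1 i, ← map_sum]
  congr 1
  exact (Finset.univ_sum_single _).symm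

/-- The points of a functional on `B`. -/
noncomputable def xs (B : Submodule F (Fin g → Dual F A)) (τ : Dual F B) : Fin g → A :=
  (exists_xs B τ).choose

theorem xs_spec (B : Submodule F (Fin g → Dual F A)) (τ : Dual F B) (c : B) :
    τ c = ∑ i, (c : Fin g → Dual F A) i (xs B τ i) := (exists_xs B τ).choose_spec c

/-- The functional that corrects the columns. -/
noncomputable def Lam (N : A →ₗ[F] (Fin g → Dual F A)) {B : Submodule F (Fin g → Dual F A)}
    (M : A →ₗ[F] B) (τ : Dual F B) : Dual F A :=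
  ∑ i, (LinearMap.proj i ∘ₗ T N (xs B τ i) + (M (xs B τ i) : Fin g → Dual F A) i)

theorem Lam_apply (N : A →ₗ[F] (Fin g → Dual F A)) {B : Submodule F (Fin g → Dual F A)}
    (M : A →ₗ[F] B) (τ : Dual F B) (x : A) :
    Lam N M τ x = ∑ i, (T N (xs B τ i) x i + (M (xs B τ i) : Fin g → Dual F A) i x) := by
  unfold Lam
  rw [LinearMap.sum_apply]
  rfl

theorem finrank_span_one (x : A) : finrank F (Submodule.span F {x}) ≤ 1 := by
  classical
  have h6 := finrank_span_finset_le_card (R := F) ({x} : Finset A)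
  have h7 : (({x} : Finset A) : Set A) = {x} := by simp
  unfold Set.finrank at h6
  rw [h7] at h6
  exact h6.trans (by simp)

theorem finrank_span_range (y : Fin g → A) : finrank F (Submodule.span F (Set.range y)) ≤ g := by
  have h := finrank_range_le_card (R := F) y
  rwa [Fintype.card_fin] at h

end

/-- The graph of the exponents `h`. -/
def eG {R C : Type} (h : R → C → F2) : SimpleGraph ((R × F2) ⊕ (C × F2)) where
  Adj
    | Sum.inl u, Sum.inl v => u.1 = v.1 ∧ u.2 ≠ v.2
    | Sum.inl u, Sum.inr v => h u.1 v.1 = u.2 + v.2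
    | Sum.inr u, Sum.inl v => h v.1 u.1 = v.2 + u.2
    | Sum.inr _, Sum.inr _ => False
  symm := ⟨fun u v huv => by
    rcases u with u | u <;> rcases v with v | v
    · exact ⟨huv.1.symm, huv.2.symm⟩
    · exact huv
    · exact huv
    · exact huv⟩
  loopless := ⟨fun u hu => by
    rcases u with u | u
    · exact hu.2 rfl
    · exact hu⟩

section

variable {A : Type} [AddCommGroup A] [Module F2 A] [Finite A]
  {q : Fin 6 → (Dual F2 A →ₗ[F2] A)} {B : Submodule F2 (Fin 6 → Dual F2 A)}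

/-- The vertices. -/
abbrev Vt (B : Submodule F2 (Fin 6 → Dual F2 A)) : Type :=
  (((A × B) × U) × F2) ⊕ ((U × Dual F2 (A × B)) × F2)

/-- The functional on `B`. -/
def tau (t : Dual F2 (A × B)) : Dual F2 B := t ∘ₗ LinearMap.inr F2 A B

theorem tau_add (t : Dual F2 (A × B)) (l : Dual F2 A) :
    tau (t + l ∘ₗ LinearMap.fst F2 A B) = tau t := by
  refine LinearMap.ext fun c => ?_
  show t (0, c) + l 0 = t (0, c)
  rw [map_zero, add_zero]

/-- The map of the vertices. -/
noncomputable def bf (N : A →ₗ[F2] (Fin 6 → Dual F2 A)) (M : A →ₗ[F2] B) : Vt B → Vt B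
  | Sum.inl r => Sum.inl (((r.1.1.1, r.1.1.2 + M r.1.1.1), r.1.2), r.2)
  | Sum.inr k => Sum.inr ((k.1.1, k.1.2 + Lam N M (tau k.1.2) ∘ₗ LinearMap.fst F2 A B), k.2)

theorem bf_bf (N : A →ₗ[F2] (Fin 6 → Dual F2 A)) (M : A →ₗ[F2] B) (u : Vt B) :
    bf N M (bf N M u) = u := by
  rcases u with ⟨⟨⟨x, c⟩, s⟩, a⟩ | ⟨⟨w, t⟩, b⟩
  · show Sum.inl (((x, c + M x + M x), s), a) = _
    rw [add_assoc, vadd_self (M x), add_zero]
  · show Sum.inr ((w, t + Lam N M (tau t) ∘ₗ LinearMap.fst F2 A B +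
      Lam N M (tau (t + Lam N M (tau t) ∘ₗ LinearMap.fst F2 A B)) ∘ₗ LinearMap.fst F2 A B), b) = _
    rw [tau_add, add_assoc, vadd_self, add_zero]

/-- The level of a vertex. -/
noncomputable def lvl : Vt B → Submodule F2 A
  | Sum.inl r => Submodule.span F2 {r.1.1.1}
  | Sum.inr k => Submodule.span F2 (Set.range (xs B (tau k.1.2)))

theorem lvl_bf (N : A →ₗ[F2] (Fin 6 → Dual F2 A)) (M : A →ₗ[F2] B) (u : Vt B) :
    lvl (bf N M u) = lvl u := by
  rcases u with ⟨⟨⟨x, c⟩, s⟩, a⟩ | ⟨⟨w, t⟩, b⟩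
  · rfl
  · show Submodule.span F2 (Set.range (xs B (tau (t + _)))) = _
    rw [tau_add]
    rfl

/-- The exponents agree for the local solutions. -/
theorem hF_shift {N : A →ₗ[F2] (Fin 6 → Dual F2 A)} (M : A →ₗ[F2] B) (r : (A × B) × U)
    (k : U × Dual F2 (A × B)) (W : Submodule F2 A)
    (hM : ∀ x ∈ W, Q (cB M) x = Q N x) (hr : r.1.1 ∈ W) (hk : ∀ i, xs B (tau k.2) i ∈ W) :
    hF (GG B N) r k = hF (GG B 0) ((r.1.1, r.1.2 + M r.1.1), r.2)
      (k.1, k.2 + Lam N M (tau k.2) ∘ₗ LinearMap.fst F2 A B) := by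
  obtain ⟨⟨x, c⟩, s⟩ := r
  obtain ⟨w, t⟩ := k
  have h1 : ∀ i, (M x : Fin 6 → Dual F2 A) i x = N x i x := fun i => congrFun (hM x hr) i
  have h2 : ∀ i, (M (xs B (tau t) i) : Fin 6 → Dual F2 A) i (xs B (tau t) i) =
      N (xs B (tau t) i) i (xs B (tau t) i) := fun i => congrFun (hM _ (hk i)) i
  have h3 : ∀ i, (M (x + xs B (tau t) i) : Fin 6 → Dual F2 A) i (x + xs B (tau t) i) =
      N (x + xs B (tau t) i) i (x + xs B (tau t) i) :=
    fun i => congrFun (hM _ (W.add_mem hr (hk i))) i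
  have h4 : ∀ i, (M x : Fin 6 → Dual F2 A) i (xs B (tau t) i) =
      T N (xs B (tau t) i) x i + (M (xs B (tau t) i) : Fin 6 → Dual F2 A) i x := by
    intro i
    have h5 := h3 i
    simp only [map_add, Submodule.coe_add, Pi.add_apply, LinearMap.add_apply] at h5
    rw [T_apply]
    linear_combination h5 - h1 i - h2 i - ((M (xs B (tau t) i) : Fin 6 → Dual F2 A) i x -
      N x i (xs B (tau t) i)) * two0
  have h5 : tau t (M x) = Lam N M (tau t) x := by
    rw [xs_spec, Lam_apply]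
    exact Finset.sum_congr rfl fun i _ => h4 i
  have h6 : t (x, c + M x) = t (x, c) + tau t (M x) := by
    show t (x, c + M x) = t (x, c) + t (0, M x)
    rw [← map_add, Prod.mk_add_mk, add_zero]
  unfold hF GG
  show s ⬝ᵥ w + t (x, c) + ∑ i, ((c : Fin 6 → Dual F2 A) i x + N x i x) * QU w i =
    s ⬝ᵥ w + (t (x, c + M x) + Lam N M (tau t) x) +
      ∑ i, (((c + M x : B) : Fin 6 → Dual F2 A) i x + 0) * QU w i
  have h7 : ∀ i, ((c + M x : B) : Fin 6 → Dual F2 A) i x + 0 =
      (c : Fin 6 → Dual F2 A) i x + N x i x := by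
    intro i
    rw [add_zero, Submodule.coe_add, Pi.add_apply, LinearMap.add_apply, h1]
  have h8 : ∑ i, (((c + M x : B) : Fin 6 → Dual F2 A) i x + 0) * QU w i =
      ∑ i, ((c : Fin 6 → Dual F2 A) i x + N x i x) * QU w i :=
    Finset.sum_congr rfl fun i _ => by rw [h7 i]
  rw [h8, h6, h5]
  linear_combination -(Lam N M (tau t) x) * two0

/-- The bijections of the vertices. -/
noncomputable def hdAct (halt : ∀ (i : Fin 6) (φ : Dual F2 A), φ (q i φ) = 0) {K : ℕ}
    (hK : 1 ≤ K) (hE : Expands q (4 * K)) (B : Submodule F2 (Fin 6 → Dual F2 A))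
    (hB : B = LinearMap.ker (tot q)) (φ₀ : Dual F2 A) (c₀ : Fin 6 → Dual F2 A) :
    haveI : FiniteDimensional F2 A := Module.Finite.of_finite
    Act (hdSys halt hE B hB (Q (φ₀.smulRight c₀)) φ₀ c₀ rfl)
      (eG (hF (GG B (φ₀.smulRight c₀)))) (eG (hF (GG B 0))) :=
  haveI : FiniteDimensional F2 A := Module.Finite.of_finite
  { b := fun M => ⟨bf (φ₀.smulRight c₀) M, bf (φ₀.smulRight c₀) M,
      bf_bf _ M, bf_bf _ M⟩
    lv := lvl
    lv' := lvl
    c := 6
    inv := fun M n u hn => by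
      show bf (φ₀.smulRight c₀) (M + n) u = bf (φ₀.smulRight c₀) M u
      rcases u with ⟨⟨⟨x, c⟩, s⟩, a⟩ | ⟨⟨w, t⟩, b⟩
      · have h1 : (M + n) x = M x := by
          refine om_eq fun i y => ?_
          rw [map_add, hn _ (Submodule.subset_span (by simp)), add_zero]
        show Sum.inl (((x, c + (M + n) x), s), a) = Sum.inl (((x, c + M x), s), a)
        rw [h1]
      · have h1 : ∀ i, (M + n) (xs B (tau t) i) = M (xs B (tau t) i) := by
          intro i
          refine om_eq fun j y => ?_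
          rw [map_add, hn _ (Submodule.subset_span (Set.mem_range_self i)), add_zero]
        show Sum.inr ((w, t + Lam (φ₀.smulRight c₀) (M + n) (tau t) ∘ₗ LinearMap.fst F2 A B), b) =
          Sum.inr ((w, t + Lam (φ₀.smulRight c₀) M (tau t) ∘ₗ LinearMap.fst F2 A B), b)
        have h2 : Lam (φ₀.smulRight c₀) (M + n) (tau t) = Lam (φ₀.smulRight c₀) M (tau t) := by
          unfold Lam
          refine Finset.sum_congr rfl fun i _ => ?_
          rw [h1]
        rw [h2]
    lev := fun M u => lvl_bf _ M u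
    size := fun u => by
      show finrank F2 (lvl u) ≤ 6
      rcases u with ⟨⟨⟨x, c⟩, s⟩, a⟩ | ⟨⟨w, t⟩, b⟩
      · exact (finrank_span_one x).trans (by norm_num)
      · exact finrank_span_range _
    iso := fun u u' M hM => by
      have key : ∀ x ∈ lvl u ⊔ lvl u', Q (cB M) x = Q (φ₀.smulRight c₀) x := fun x hx =>
        eq_on hK (Q (φ₀.smulRight c₀)) _ _ hM hx
      show _ ↔ (eG (hF (GG B 0))).Adj (bf (φ₀.smulRight c₀) M u) (bf (φ₀.smulRight c₀) M u')
      rcases u with ⟨⟨⟨x, c⟩, s⟩, a⟩ | ⟨⟨w, t⟩, b⟩ <;>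
        rcases u' with ⟨⟨⟨x', c'⟩, s'⟩, a'⟩ | ⟨⟨w', t'⟩, b'⟩
      · show (((x, c), s) = ((x', c'), s') ∧ a ≠ a') ↔
          (((x, c + M x), s) = ((x', c' + M x'), s') ∧ a ≠ a')
        refine and_congr_left fun _ => ?_
        constructor
        · intro h
          simp only [Prod.mk.injEq] at h
          obtain ⟨⟨rfl, rfl⟩, rfl⟩ := h
          rfl
        · intro h
          simp only [Prod.mk.injEq] at h
          obtain ⟨⟨rfl, h2⟩, rfl⟩ := h
          rw [add_right_cancel h2]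
      · show (hF (GG B (φ₀.smulRight c₀)) ((x, c), s) (w', t') = a + b') ↔ (hF (GG B 0) _ _ = a + b')
        rw [hF_shift M ((x, c), s) (w', t') _ key
          (Submodule.mem_sup_left (Submodule.subset_span (by simp)))
          (fun i => Submodule.mem_sup_right (Submodule.subset_span (Set.mem_range_self i)))]
      · show (hF (GG B (φ₀.smulRight c₀)) ((x', c'), s') (w, t) = a' + b) ↔
          (hF (GG B 0) _ _ = a' + b)
        rw [hF_shift M ((x', c'), s') (w, t) _ key
          (Submodule.mem_sup_right (Submodule.subset_span (by simp)))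
          (fun i => Submodule.mem_sup_left (Submodule.subset_span (Set.mem_range_self i)))]
      · exact Iff.rfl }

theorem hdAct_torsor (halt : ∀ (i : Fin 6) (φ : Dual F2 A), φ (q i φ) = 0) {K : ℕ}
    (hK : 1 ≤ K) (hE : Expands q (4 * K)) (B : Submodule F2 (Fin 6 → Dual F2 A))
    (hB : B = LinearMap.ker (tot q)) (φ₀ : Dual F2 A) (c₀ : Fin 6 → Dual F2 A) :
    (hdAct halt hK hE B hB φ₀ c₀).Torsor := by
  intro M h u
  show bf (φ₀.smulRight c₀) (M + h) u = bf (φ₀.smulRight c₀) M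
    (bf (φ₀.smulRight c₀) 0 (bf (φ₀.smulRight c₀) h u))
  rcases u with ⟨⟨⟨x, c⟩, s⟩, a⟩ | ⟨⟨w, t⟩, b⟩
  · show Sum.inl (((x, c + (M x + h x)), s), a) = Sum.inl (((x, c + h x + 0 + M x), s), a)
    rw [add_zero, add_comm (M x), add_assoc]
  · have e1 : ∀ (l : A →ₗ[F2] B) (t : Dual F2 (A × B)),
        bf (φ₀.smulRight c₀) l (Sum.inr ((w, t), b) : Vt B) =
        Sum.inr ((w, t + Lam (φ₀.smulRight c₀) l (tau t) ∘ₗ LinearMap.fst F2 A B), b) :=
      fun l t => rfl
    rw [e1, e1, e1, e1]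
    simp only [tau_add]
    have e2 : Lam (φ₀.smulRight c₀) (M + h) (tau t) = Lam (φ₀.smulRight c₀) h (tau t) +
        Lam (φ₀.smulRight c₀) 0 (tau t) + Lam (φ₀.smulRight c₀) M (tau t) := by
      refine LinearMap.ext fun y => ?_
      rw [LinearMap.add_apply, LinearMap.add_apply, Lam_apply, Lam_apply, Lam_apply, Lam_apply,
        ← Finset.sum_add_distrib, ← Finset.sum_add_distrib]
      refine Finset.sum_congr rfl fun i _ => ?_
      have e3 : ((M + h) (xs B (tau t) i) : Fin 6 → Dual F2 A) i y =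
          (M (xs B (tau t) i) : Fin 6 → Dual F2 A) i y +
          (h (xs B (tau t) i) : Fin 6 → Dual F2 A) i y := rfl
      have e4 : ((0 : A →ₗ[F2] B) (xs B (tau t) i) : Fin 6 → Dual F2 A) i y = 0 := rfl
      rw [e3, e4]
      linear_combination -(T (φ₀.smulRight c₀) (xs B (tau t) i) y i) * two0
    rw [e2]
    congr 2
    refine Prod.ext rfl ?_
    simp only [LinearMap.add_comp]
    abel

end

end Pool.Agent.N616.HD
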