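import Mathlib

/-!
# Hadamard matrices: equivalence and the graph
-/

set_option autoImplicit false

namespace Pool.Agent.N616.HD

/-- The graph of a square matrix `H` with entries `1` and `-1`: two vertices `(i, 1)`, `(i, -1)` for
every row `i` and two vertices `(j, 1)`, `(j, -1)` for every column `j`. The two vertices of a row
are adjacent, and the vertex `(i, a)` of the row `i` is adjacent to the vertex `(j, b)` of the
column `j` if `H i j = a * b`. There are no other edges. -/
def hadGraph {R C : Type} (H : Matrix R C ℤ) : SimpleGraph ((R × ℤˣ) ⊕ (C × ℤˣ)) where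
  Adj
    | Sum.inl u, Sum.inl v => u.1 = v.1 ∧ u.2 ≠ v.2
    | Sum.inl u, Sum.inr v => H u.1 v.1 = u.2 * v.2
    | Sum.inr u, Sum.inl v => H v.1 u.1 = v.2 * u.2
    | Sum.inr _, Sum.inr _ => False
  symm := ⟨fun u v huv => by
    rcases u with u | u <;> rcases v with v | v
    · exact ⟨huv.1.symm, huv.2.symm⟩
    · exact huv
    · exact huv
    · exact huv⟩
  loopless := ⟨fun u hu => by
    rcases u with u | u
    · exact hu.2 rfl
    · exact hu⟩

/-- Two square matrices are equivalent if the second one arises from the first one by permuting the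
rows and the columns and multiplying some rows and some columns by `-1`. -/
def HadEquiv {n : ℕ} (H H' : Matrix (Fin n) (Fin n) ℤ) : Prop :=
  ∃ (ρ κ : Equiv.Perm (Fin n)) (e d : Fin n → ℤˣ),
    ∀ i j, H' (ρ i) (κ j) = (e i : ℤ) * H i j * (d j : ℤ)

end Pool.Agent.N616.HD
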