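import Pool.Agent.N616.HD.Defs

/-!
# Hadamard matrices are equivalent if and only if their graphs are isomorphic
-/

set_option autoImplicit false
set_option linter.unusedSectionVars false

namespace Pool.Agent.N616.HD

open Matrix

section

variable {n : ℕ} {H H' : Matrix (Fin n) (Fin n) ℤ}

theorem unit_sq (a : ℤˣ) : a * a = 1 := Int.units_mul_self a

theorem unit_ne_neg (a : ℤˣ) : a ≠ -a := by
  rcases Int.units_eq_one_or a with h | h
  · rw [h]
    decide
  · rw [h]
    decide

theorem one_ne_neg : (1 : ℤˣ) ≠ -1 := by decide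

theorem entry_unit (hH : H.IsHadamard) (i j : Fin n) : ∃ u : ℤˣ, H i j = u := by
  rcases Unitary.mem_iff_eq_one_or_eq_neg_one.mp (hH.apply_mem i j) with h | h
  · exact ⟨1, by rw [h]; rfl⟩
  · exact ⟨-1, by rw [h]; rfl⟩

theorem coe_mul_eq {u a b : ℤˣ} : (u : ℤ) = a * b ↔ u = a * b := by
  rw [← Units.val_mul]
  exact Units.val_inj

theorem unit_solve {u a b : ℤˣ} : u = a * b ↔ b = a * u := by
  constructor
  · rintro rfl
    rw [← mul_assoc, unit_sq, one_mul]
  · rintro rfl
    rw [← mul_assoc, unit_sq, one_mul]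

theorem iso_of_equiv (h : HadEquiv H H') : Nonempty (hadGraph H ≃g hadGraph H') := by
  obtain ⟨ρ, κ, e, d, h⟩ := h
  have hs : ∀ (a : ℤˣ) (b : ℤˣ), a * b * b = a := fun a b => by
    rw [mul_assoc, unit_sq, mul_one]
  let f : (Fin n × ℤˣ) ⊕ (Fin n × ℤˣ) ≃ (Fin n × ℤˣ) ⊕ (Fin n × ℤˣ) :=
    Equiv.sumCongr
      ⟨fun u => (ρ u.1, u.2 * e u.1), fun u => (ρ.symm u.1, u.2 * e (ρ.symm u.1)),
        fun u => by
          show (ρ.symm (ρ u.1), u.2 * e u.1 * e (ρ.symm (ρ u.1))) = u
          rw [Equiv.symm_apply_apply, hs],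
        fun u => by
          show (ρ (ρ.symm u.1), u.2 * e (ρ.symm u.1) * e (ρ.symm u.1)) = u
          rw [Equiv.apply_symm_apply, hs]⟩
      ⟨fun u => (κ u.1, u.2 * d u.1), fun u => (κ.symm u.1, u.2 * d (κ.symm u.1)),
        fun u => by
          show (κ.symm (κ u.1), u.2 * d u.1 * d (κ.symm (κ u.1))) = u
          rw [Equiv.symm_apply_apply, hs],
        fun u => by
          show (κ (κ.symm u.1), u.2 * d (κ.symm u.1) * d (κ.symm u.1)) = u
          rw [Equiv.apply_symm_apply, hs]⟩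
  have key : ∀ (i j : Fin n) (a b : ℤˣ), H' (ρ i) (κ j) = ((a * e i : ℤˣ) : ℤ) * ((b * d j : ℤˣ) : ℤ) ↔
      H i j = a * b := by
    intro i j a b
    rw [h i j]
    constructor
    · intro h1
      have h2 : (e i : ℤ) * ((e i : ℤ) * H i j * (d j : ℤ)) * (d j : ℤ) =
          (e i : ℤ) * (((a * e i : ℤˣ) : ℤ) * ((b * d j : ℤˣ) : ℤ)) * (d j : ℤ) := by rw [h1]
      have e1 : (e i : ℤ) * (e i : ℤ) = 1 := by
        rw [← Units.val_mul, unit_sq]
        rfl
      have e2 : (d j : ℤ) * (d j : ℤ) = 1 := by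
        rw [← Units.val_mul, unit_sq]
        rfl
      rw [Units.val_mul, Units.val_mul] at h2
      linear_combination h2 - H i j * (d j : ℤ) ^ 2 * e1 - H i j * e2 +
        (a : ℤ) * b * (d j : ℤ) ^ 2 * e1 + (a : ℤ) * b * e2
    · intro h1
      rw [h1, Units.val_mul, Units.val_mul]
      ring
  refine ⟨⟨f, fun {u v} => ?_⟩⟩
  rcases u with ⟨i, a⟩ | ⟨j, b⟩ <;> rcases v with ⟨i', a'⟩ | ⟨j', b'⟩
  · show (ρ i = ρ i' ∧ a * e i ≠ a' * e i') ↔ (i = i' ∧ a ≠ a')
    constructor
    · rintro ⟨h1, h2⟩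
      have h3 := ρ.injective h1
      subst h3
      exact ⟨rfl, fun h4 => h2 (by rw [h4])⟩
    · rintro ⟨rfl, h2⟩
      exact ⟨rfl, fun h4 => h2 (mul_right_cancel h4)⟩
  · exact key i j' a b'
  · exact key i' j a' b
  · exact Iff.rfl

/-! ### Degrees -/

theorem card_row (hH : H.IsHadamard) (u : Fin n × ℤˣ) :
    Nat.card {v // (hadGraph H).Adj (Sum.inl u) v} = n + 1 := by
  have hu := entry_unit hH
  choose w hw using hu
  have h1 : Nat.card (Option (Fin n)) = n + 1 := by
    rw [Nat.card_eq_fintype_card, Fintype.card_option, Fintype.card_fin]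
  rw [← h1]
  refine (Nat.card_congr (Equiv.ofBijective (fun o : Option (Fin n) =>
    match o with
    | none => (⟨Sum.inl (u.1, -u.2), rfl, unit_ne_neg u.2⟩ :
        {v // (hadGraph H).Adj (Sum.inl u) v})
    | some j => ⟨Sum.inr (j, u.2 * w u.1 j), by
        show H u.1 j = (u.2 : ℤ) * ((u.2 * w u.1 j : ℤˣ) : ℤ)
        rw [hw, coe_mul_eq, ← mul_assoc, unit_sq, one_mul]⟩) ⟨?_, ?_⟩)).symm
  · intro o o' h
    have h2 := congrArg Subtype.val h
    rcases o with _ | j <;> rcases o' with _ | j'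
    · rfl
    · exact absurd h2 (by simp)
    · exact absurd h2 (by simp)
    · have h3 := Sum.inr.inj h2
      exact congrArg some (congrArg Prod.fst h3)
  · rintro ⟨⟨i, a⟩ | ⟨j, b⟩, hv⟩
    · refine ⟨none, Subtype.ext ?_⟩
      obtain ⟨h2, h3⟩ := hv
      show Sum.inl (u.1, -u.2) = Sum.inl (i, a)
      have h4 : -u.2 = a := by
        rcases Int.units_eq_one_or u.2 with h | h <;> rcases Int.units_eq_one_or a with h' | h'
        · exact absurd (h.trans h'.symm) h3
        · rw [h, h']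
        · rw [h, h', neg_neg]
        · exact absurd (h.trans h'.symm) h3
      rw [h4]
      exact congrArg Sum.inl (Prod.ext h2 rfl)
    · refine ⟨some j, Subtype.ext ?_⟩
      have h2 : H u.1 j = u.2 * b := hv
      rw [hw, coe_mul_eq, unit_solve] at h2
      show Sum.inr (j, u.2 * w u.1 j) = Sum.inr (j, b)
      rw [h2]

theorem card_col (hH : H.IsHadamard) (u : Fin n × ℤˣ) :
    Nat.card {v // (hadGraph H).Adj (Sum.inr u) v} = n := by
  have hu := entry_unit hH
  choose w hw using hu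
  have h1 : Nat.card (Fin n) = n := by
    rw [Nat.card_eq_fintype_card, Fintype.card_fin]
  refine Eq.trans ?_ h1
  refine (Nat.card_congr (Equiv.ofBijective (fun i : Fin n =>
    (⟨Sum.inl (i, u.2 * w i u.1), by
        show H i u.1 = ((u.2 * w i u.1 : ℤˣ) : ℤ) * (u.2 : ℤ)
        rw [hw, coe_mul_eq, mul_comm u.2, mul_assoc, unit_sq, mul_one]⟩ :
        {v // (hadGraph H).Adj (Sum.inr u) v})) ⟨?_, ?_⟩)).symm
  · intro o o' h
    have h2 := congrArg Subtype.val h
    have h3 := Sum.inl.inj h2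
    exact congrArg Prod.fst h3
  · rintro ⟨⟨i, a⟩ | ⟨j, b⟩, hv⟩
    · refine ⟨i, Subtype.ext ?_⟩
      have h2 : H i u.1 = a * u.2 := hv
      rw [hw, mul_comm, coe_mul_eq, unit_solve] at h2
      show Sum.inl (i, u.2 * w i u.1) = Sum.inl (i, a)
      rw [h2]
    · exact hv.elim

/-! ### Common neighbours of columns -/

theorem exists_common (hH : H.IsHadamard) {j j' : Fin n} (hj : j ≠ j') (b b' : ℤˣ) :
    ∃ (i : Fin n) (a : ℤˣ), H i j = a * b ∧ H i j' = a * b' := by
  by_contra hcon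
  push Not at hcon
  have hu := entry_unit hH
  choose w hw using hu
  have h1 : ∀ i, H i j * H i j' = -(b * b') := by
    intro i
    have h2 := hcon i (w i j * b) (by
      rw [hw, coe_mul_eq, mul_assoc, unit_sq, mul_one])
    rw [hw i j', Ne, coe_mul_eq] at h2
    have h3 : w i j' = -(w i j * b * b') := by
      rcases Int.units_eq_one_or (w i j') with h | h <;>
        rcases Int.units_eq_one_or (w i j * b * b') with h' | h'
      · exact absurd (h.trans h'.symm) h2
      · rw [h, h', neg_neg]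
      · rw [h, h']
      · exact absurd (h.trans h'.symm) h2
    rw [hw, hw, h3, ← Units.val_mul]
    have h4 : w i j * -(w i j * b * b') = -(b * b') := by
      rw [mul_neg, ← mul_assoc, ← mul_assoc, unit_sq, one_mul]
    rw [h4, Units.val_neg, Units.val_mul]
  have h2 := congrFun (congrFun hH.conjTranspose_mul j) j'
  rw [Matrix.mul_apply] at h2
  simp only [Matrix.conjTranspose_apply, star_trivial, Matrix.smul_apply, smul_eq_mul,
    Matrix.one_apply_ne hj, mul_zero] at h2
  rw [Finset.sum_congr rfl fun i _ => h1 i, Finset.sum_const, Finset.card_univ,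
    Fintype.card_fin, nsmul_eq_mul] at h2
  have h3 : (n : ℤ) ≠ 0 := by
    have h4 : 0 < n := Fin.pos j
    exact_mod_cast h4.ne'
  rcases mul_eq_zero.1 h2 with h4 | h4
  · exact h3 h4
  · rw [← Units.val_mul, neg_eq_zero] at h4
    exact (b * b').ne_zero h4

theorem equiv_of_iso (hH : H.IsHadamard) (hH' : H'.IsHadamard)
    (Φ : hadGraph H ≃g hadGraph H') : HadEquiv H H' := by
  classical
  have hcard : ∀ u, Nat.card {v // (hadGraph H).Adj u v} =
      Nat.card {v // (hadGraph H').Adj (Φ u) v} := by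
    intro u
    exact Nat.card_congr (Φ.toEquiv.subtypeEquiv fun v => Φ.map_adj_iff.symm)
  have hrow : ∀ u, ∃ v, Φ (Sum.inl u) = Sum.inl v := by
    intro u
    rcases h : Φ (Sum.inl u) with v | v
    · exact ⟨v, rfl⟩
    · exfalso
      have h1 := hcard (Sum.inl u)
      rw [card_row hH, h, card_col hH'] at h1
      omega
  have hcol : ∀ u, ∃ v, Φ (Sum.inr u) = Sum.inr v := by
    intro u
    rcases h : Φ (Sum.inr u) with v | v
    · exfalso
      have h1 := hcard (Sum.inr u)
      rw [card_col hH, h, card_row hH'] at h1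
      omega
    · exact ⟨v, rfl⟩
  choose fr hfr using hrow
  choose fc hfc using hcol
  have other : ∀ {a b : ℤˣ}, a ≠ b → b = -a := by
    intro a b h
    rcases Int.units_eq_one_or a with h1 | h1 <;> rcases Int.units_eq_one_or b with h2 | h2
    · exact absurd (h1.trans h2.symm) h
    · rw [h1, h2]
    · rw [h1, h2, neg_neg]
    · exact absurd (h1.trans h2.symm) h
  -- rows
  have hr1 : ∀ i, fr (i, -1) = ((fr (i, 1)).1, -(fr (i, 1)).2) := by
    intro i
    have h1 : (hadGraph H).Adj (Sum.inl (i, 1)) (Sum.inl (i, -1)) := ⟨rfl, one_ne_neg⟩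
    have h2 := Φ.map_adj_iff.2 h1
    rw [hfr, hfr] at h2
    exact Prod.ext h2.1.symm (other h2.2)
  have hr2 : ∀ i a, fr (i, a) = ((fr (i, 1)).1, a * (fr (i, 1)).2) := by
    intro i a
    rcases Int.units_eq_one_or a with h | h
    · rw [h, one_mul]
    · rw [h, hr1, neg_one_mul]
  have hfr_inj : Function.Injective fr := by
    intro u v h
    have h1 : Φ (Sum.inl u) = Φ (Sum.inl v) := by rw [hfr, hfr, h]
    exact Sum.inl.inj (Φ.injective h1)
  have hr3 : Function.Injective fun i => (fr (i, 1)).1 := by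
    intro i i' h
    have h0 : (fr (i, 1)).1 = (fr (i', 1)).1 := h
    have h1 : fr (i', 1) = fr (i, (fr (i, 1)).2 * (fr (i', 1)).2) := by
      rw [hr2 i]
      refine Prod.ext h0.symm ?_
      show (fr (i', 1)).2 = (fr (i, 1)).2 * (fr (i', 1)).2 * (fr (i, 1)).2
      rw [mul_comm, ← mul_assoc, unit_sq, one_mul]
    exact (congrArg Prod.fst (hfr_inj h1)).symm
  -- columns
  have hc1 : ∀ j, fc (j, -1) = ((fc (j, 1)).1, -(fc (j, 1)).2) := by
    intro j
    have hne : fc (j, 1) ≠ fc (j, -1) := by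
      intro h
      have h1 : Φ (Sum.inr (j, 1)) = Φ (Sum.inr (j, -1)) := by rw [hfc, hfc, h]
      have h2 := congrArg Prod.snd (Sum.inr.inj (Φ.injective h1))
      exact absurd h2 one_ne_neg
    have h1 : (fc (j, 1)).1 = (fc (j, -1)).1 := by
      by_contra hj
      obtain ⟨i, a, h2, h3⟩ := exists_common hH' hj (fc (j, 1)).2 (fc (j, -1)).2
      obtain ⟨v, hv⟩ := Φ.surjective (Sum.inl (i, a))
      rcases v with v | v
      · have h4 : (hadGraph H').Adj (Φ (Sum.inl v)) (Φ (Sum.inr (j, 1))) := by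
          rw [hv, hfc]
          exact h2
        have h5 : (hadGraph H').Adj (Φ (Sum.inl v)) (Φ (Sum.inr (j, -1))) := by
          rw [hv, hfc]
          exact h3
        have h6 : H v.1 j = v.2 * ((1 : ℤˣ) : ℤ) := Φ.map_adj_iff.1 h4
        have h7 : H v.1 j = v.2 * ((-1 : ℤˣ) : ℤ) := Φ.map_adj_iff.1 h5
        rw [h6, Units.val_neg, Units.val_one] at h7
        have h8 : (v.2 : ℤ) = 0 := by linarith
        exact v.2.ne_zero h8
      · rw [hfc] at hv
        exact absurd hv (by simp)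
    refine Prod.ext h1.symm (other fun h2 => hne (Prod.ext h1 h2))
  have hc2 : ∀ j b, fc (j, b) = ((fc (j, 1)).1, b * (fc (j, 1)).2) := by
    intro j b
    rcases Int.units_eq_one_or b with h | h
    · rw [h, one_mul]
    · rw [h, hc1, neg_one_mul]
  have hfc_inj : Function.Injective fc := by
    intro u v h
    have h1 : Φ (Sum.inr u) = Φ (Sum.inr v) := by rw [hfc, hfc, h]
    exact Sum.inr.inj (Φ.injective h1)
  have hc3 : Function.Injective fun i => (fc (i, 1)).1 := by
    intro i i' h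
    have h0 : (fc (i, 1)).1 = (fc (i', 1)).1 := h
    have h1 : fc (i', 1) = fc (i, (fc (i, 1)).2 * (fc (i', 1)).2) := by
      rw [hc2 i]
      refine Prod.ext h0.symm ?_
      show (fc (i', 1)).2 = (fc (i, 1)).2 * (fc (i', 1)).2 * (fc (i, 1)).2
      rw [mul_comm, ← mul_assoc, unit_sq, one_mul]
    exact (congrArg Prod.fst (hfc_inj h1)).symm
  have hu := entry_unit hH
  choose w hw using hu
  refine ⟨Equiv.ofBijective _ (Finite.injective_iff_bijective.1 hr3),
    Equiv.ofBijective _ (Finite.injective_iff_bijective.1 hc3),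
    fun i => (fr (i, 1)).2, fun j => (fc (j, 1)).2, fun i j => ?_⟩
  show H' (fr (i, 1)).1 (fc (j, 1)).1 = ((fr (i, 1)).2 : ℤ) * H i j * ((fc (j, 1)).2 : ℤ)
  have h1 : (hadGraph H).Adj (Sum.inl (i, w i j)) (Sum.inr (j, 1)) := by
    show H i j = w i j * ((1 : ℤˣ) : ℤ)
    rw [hw, Units.val_one, mul_one]
  have h2 := Φ.map_adj_iff.2 h1
  rw [hfr, hfc, hr2 i (w i j)] at h2
  have h3 : H' (fr (i, 1)).1 (fc (j, 1)).1 = ((w i j * (fr (i, 1)).2 : ℤˣ) : ℤ) *
    ((fc (j, 1)).2 : ℤ) := h2
  rw [h3, hw, Units.val_mul]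
  ring

/-- Hadamard matrices are equivalent if and only if their graphs are isomorphic. -/
theorem iso_iff_equiv (hH : H.IsHadamard) (hH' : H'.IsHadamard) :
    Nonempty (hadGraph H ≃g hadGraph H') ↔ HadEquiv H H' :=
  ⟨fun ⟨Φ⟩ => equiv_of_iso hH hH' Φ, iso_of_equiv⟩

end

end Pool.Agent.N616.HD
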