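import Pool.Agent.N616.HD.Mat

/-!
# The lower bound
-/

set_option autoImplicit false
set_option linter.unusedSectionVars false

namespace Pool.Agent.N616.HD

open Module Pool.Agent.W185.SRG Pool.Agent.W879.GW Matrix
open Pool.Agent.TH658.Sos (IMEquiv PCRefutes PosRefutes)

theorem finrank_ker {F A : Type} [Field F] [AddCommGroup A] [Module F A] {g : ℕ}
    [FiniteDimensional F A] {q : Fin g → (Dual F A →ₗ[F] A)}
    (halt : ∀ (i : Fin g) (φ : Dual F A), φ (q i φ) = 0) {m : ℕ} (hE : Expands q m)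
    (hm : 1 ≤ m) : finrank F (LinearMap.ker (tot q)) + finrank F A = g * finrank F A := by
  have h1 := LinearMap.finrank_range_add_finrank_ker (tot q)
  have h2 : LinearMap.range (tot q) = ⊤ := by
    by_contra hne
    obtain ⟨x, hx⟩ : ∃ x, x ∉ LinearMap.range (tot q) := by
      by_contra h
      push Not at h
      exact hne (Submodule.eq_top_iff'.2 h)
    obtain ⟨ψ, hψ, hker⟩ := Submodule.exists_le_ker_of_notMem hx
    have h3 : ∀ i, q i ψ = 0 := by
      intro i
      refine (Module.forall_dual_apply_eq_zero_iff F _).1 fun φ => ?_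
      rw [alt_anti halt i ψ φ, neg_eq_zero, ← tot_single]
      exact LinearMap.mem_ker.1 (hker ⟨_, rfl⟩)
    have hψ0 : ψ ≠ 0 := fun h => hψ (by rw [h]; rfl)
    have h5 := hE 1 hm (fun _ => ψ) (by
      rw [linearIndependent_unique_iff]
      exact hψ0) ⊥ (by
        intro i j
        show q i ψ ∈ _
        rw [h3]
        exact Submodule.zero_mem _)
    rw [finrank_bot] at h5
    omega
  have h4 : finrank F (Fin g → Dual F A) = g * finrank F A := by
    rw [Module.finrank_pi_fintype]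
    simp [Subspace.dual_finrank_eq]
  rw [h2, finrank_top, h4] at h1
  omega

theorem exists_eqs {V : Type} [AddCommGroup V] [Module F2 V] [Finite V] {n d : ℕ}
    (hd : finrank F2 V = d) (hn : n = 2 ^ (d + 4)) :
    Nonempty (V × U ≃ Fin n) ∧ Nonempty (U × Dual F2 V ≃ Fin n) := by
  have : FiniteDimensional F2 V := Module.Finite.of_finite
  have : Finite (Dual F2 V) := Module.finite_of_finite F2
  have hcU : Nat.card U = 2 ^ 4 := by
    rw [Nat.card_eq_fintype_card, Fintype.card_fun, ZMod.card, Fintype.card_fin]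
  have hcR : Nat.card (V × U) = n := by
    rw [hn, Nat.card_prod, hcU, Module.natCard_eq_pow_finrank (K := F2), Nat.card_zmod, hd,
      pow_add]
  have hcC : Nat.card (U × Dual F2 V) = n := by
    have hD : finrank F2 (Dual F2 V) = finrank F2 V := Subspace.dual_finrank_eq
    rw [hn, Nat.card_prod, hcU, Module.natCard_eq_pow_finrank (K := F2), Nat.card_zmod,
      hD, hd, mul_comm, pow_add]
  exact ⟨⟨Finite.equivFinOfCardEq hcR⟩, ⟨Finite.equivFinOfCardEq hcC⟩⟩

theorem had_of {V : Type} [AddCommGroup V] [Module F2 V] [Finite V] (G : V → Fin 6 → F2) {n : ℕ}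
    (hn : 0 < n) (eR : V × U ≃ Fin n) (eC : U × Dual F2 V ≃ Fin n) :
    (hmat (hF G) eR eC).IsHadamard := isHadamard_of hn _ (hF_balanced G) eR eC

theorem lower_aux {A : Type} [AddCommGroup A] [Module F2 A] [Finite A]
    {q : Fin 6 → (Dual F2 A →ₗ[F2] A)} (halt : ∀ (i : Fin 6) (φ : Dual F2 A), φ (q i φ) = 0)
    (htr : ∀ (i : Fin 6) (N : A →ₗ[F2] Dual F2 A), (∀ x y, N x y = N y x) →
      LinearMap.trace F2 A (q i ∘ₗ N) = 0)
    {k m : ℕ} (hk : 1 ≤ k) (hm : 144 * k ≤ m) (hEm : Expands q m)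
    (hfr : finrank F2 A = 6 * m) (n : ℕ) (hn : n = 2 ^ (36 * m + 4)) :
    ∃ H H' : Matrix (Fin n) (Fin n) ℤ,
      H.IsHadamard ∧ H'.IsHadamard ∧ ¬ HadEquiv H H' ∧
      WLEquivalent k (hadGraph H) (hadGraph H') ∧
      IMEquiv 2 k (hadGraph H) (hadGraph H') ∧
      (∀ (K : Type) [Field K], (2 : K) ≠ 0 → ¬ PCRefutes K (hadGraph H) (hadGraph H') k) ∧
      ¬ PosRefutes (hadGraph H) (hadGraph H') k := by
  classical
  have : FiniteDimensional F2 A := Module.Finite.of_finite
  have hE : Expands q (4 * (36 * k)) := fun u hu => hEm u (by omega)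
  obtain ⟨φ₀, c₀, h0⟩ := exists_target hE (by omega) (by
    rw [hfr]
    omega)
  have hkerfr := finrank_ker halt hE (by omega)
  have hnt : Nontrivial A := by
    rw [← Module.finrank_pos_iff (R := F2), hfr]
    omega
  obtain ⟨B, hB⟩ : ∃ B : Submodule F2 (Fin 6 → Dual F2 A), B = LinearMap.ker (tot q) := ⟨_, rfl⟩
  have hfin : Finite (Dual F2 A) := Module.finite_of_finite F2
  have hfin2 : Finite (Fin 6 → Dual F2 A) := inferInstance
  have hfinB : Finite B := inferInstance
  have hfinM : Finite (A →ₗ[F2] B) := Module.finite_of_finite F2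
  have hfinV : Finite (A × B) := inferInstance
  have hfinD : Finite (Dual F2 (A × B)) := Module.finite_of_finite F2
  have hfrV : finrank F2 (A × B) = 36 * m := by
    rw [Module.finrank_prod, hB]
    omega
  obtain ⟨⟨eR⟩, ⟨eC⟩⟩ := exists_eqs (V := A × B) hfrV hn
  have hpos : 0 < n := by
    rw [hn]
    positivity
  have : Fintype (A →ₗ[F2] B) := Fintype.ofFinite _
  have hcX : ∃ m, Fintype.card (A →ₗ[F2] B) = 2 ^ m := by
    refine ⟨finrank F2 (A →ₗ[F2] B), ?_⟩
    rw [← Nat.card_eq_fintype_card, Module.natCard_eq_pow_finrank (K := F2), Nat.card_zmod]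
  have hK : 1 ≤ 36 * k := by omega
  let act := actCongr (hdAct halt hK hE B hB φ₀ c₀)
    (eGiso (hF (GG B (φ₀.smulRight c₀))) eR eC) (eGiso (hF (GG B 0)) eR eC)
  have hT : act.Torsor := actCongr_torsor (hdAct_torsor halt hK hE B hB φ₀ c₀) _ _
  have had1 := had_of (GG B (φ₀.smulRight c₀)) hpos eR eC
  have had2 := had_of (GG B 0) hpos eR eC
  refine ⟨hmat (hF (GG B (φ₀.smulRight c₀))) eR eC, hmat (hF (GG B 0)) eR eC, had1, had2,
    ?_, ?_, ?_, ?_, ?_⟩
  · intro heq
    obtain ⟨ρ, κ, e, d, h⟩ := exps_of_equiv _ _ eR eC heq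
    refine not_equiv halt htr hEm (by omega) hnt ?_ hB φ₀ c₀ h0 ρ κ e d h
    rw [hfr]
    omega
  · refine Pool.Agent.Q245.STS.wl_of_act act ?_
    show 6 * (k + 1) ≤ 36 * k
    omega
  · refine act.imEquiv hT (fun K _ hpK => ?_) ?_ ?_
    · obtain ⟨m, hm⟩ := hcX
      rw [hm, Nat.cast_pow]
      exact pow_ne_zero _ hpK
    · show 4 * (6 * k) ≤ 36 * k
      omega
    · show 6 + 6 ≤ 36 * k
      omega
  · intro K _ hpK
    refine act.not_pcRefutes K ?_ (d := k) ?_
    · obtain ⟨m, hm⟩ := hcX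
      rw [hm, Nat.cast_pow]
      exact pow_ne_zero _ (by exact_mod_cast hpK)
    · show 3 * (6 * (k + 1)) ≤ 36 * k
      omega
  · refine act.not_posRefutes (d := k) ?_
    show 3 * (6 * (k + 1)) ≤ 36 * k
    omega

theorem lower (k m : ℕ) (hk : 1 ≤ k) (hm : 144 * k ≤ m) (n : ℕ) (hn : n = 2 ^ (36 * m + 4)) :
    ∃ H H' : Matrix (Fin n) (Fin n) ℤ,
      H.IsHadamard ∧ H'.IsHadamard ∧ ¬ HadEquiv H H' ∧
      WLEquivalent k (hadGraph H) (hadGraph H') ∧
      IMEquiv 2 k (hadGraph H) (hadGraph H') ∧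
      (∀ (K : Type) [Field K], (2 : K) ≠ 0 → ¬ PCRefutes K (hadGraph H) (hadGraph H') k) ∧
      ¬ PosRefutes (hadGraph H) (hadGraph H') k := by
  obtain ⟨q, halt, hE, htr⟩ := exists_expander2 (F := F2) m
  exact lower_aux halt htr hk hm hE (Module.finrank_fin_fun _) n hn

end Pool.Agent.N616.HD
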