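import Pool.Agent.N616.HD.UpperB
import Pool.Agent.N616.HD.Act

/-!
# The Hadamard matrices
-/

set_option autoImplicit false
set_option linter.unusedSectionVars false

namespace Pool.Agent.N616.HD

open Module Pool.Agent.W185.SRG Pool.Agent.W879.GW Matrix
open Pool.Agent.TH658.Sos (Sys Act)

/-- the sign -/
def sgn (x : F2) : ℤˣ := if x = 0 then 1 else -1

theorem sgn_add : ∀ x y : F2, sgn (x + y) = sgn x * sgn y := by decide

theorem sgn_inj : ∀ x y : F2, sgn x = sgn y → x = y := by decide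

theorem sgn_surj : ∀ a : ℤˣ, ∃ x : F2, sgn x = a := by decide

/-- the sign as an equivalence -/
noncomputable def sgnE : F2 ≃ ℤˣ := Equiv.ofBijective sgn ⟨fun x y => sgn_inj x y, sgn_surj⟩

theorem sgnE_apply (x : F2) : sgnE x = sgn x := rfl

theorem sgn_one : sgn 1 = -1 := by decide

theorem sgn_zero : sgn 0 = 1 := by decide

/-- The matrix of the exponents `h`. -/
def hmat {R C R' C' : Type} (h : R → C → F2) (eR : R ≃ R') (eC : C ≃ C') : Matrix R' C' ℤ :=
  fun i j => ((sgn (h (eR.symm i) (eC.symm j)) : ℤˣ) : ℤ)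

/-- The graph of the exponents is the graph of the matrix. -/
noncomputable def eGiso {R C R' C' : Type} (h : R → C → F2) (eR : R ≃ R') (eC : C ≃ C') :
    eG h ≃g hadGraph (hmat h eR eC) where
  toEquiv := Equiv.sumCongr (Equiv.prodCongr eR sgnE) (Equiv.prodCongr eC sgnE)
  map_rel_iff' := by
    intro u v
    have key : ∀ (r : R) (k : C) (a b : F2),
        ((sgn (h (eR.symm (eR r)) (eC.symm (eC k))) : ℤˣ) : ℤ) = (sgn a : ℤ) * (sgn b : ℤ) ↔
        h r k = a + b := by
      intro r k a b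
      rw [Equiv.symm_apply_apply, Equiv.symm_apply_apply, coe_mul_eq, ← sgn_add]
      exact ⟨fun h => sgn_inj _ _ h, fun h => by rw [h]⟩
    rcases u with ⟨r, a⟩ | ⟨k, b⟩ <;> rcases v with ⟨r', a'⟩ | ⟨k', b'⟩
    · show (eR r = eR r' ∧ sgn a ≠ sgn a') ↔ (r = r' ∧ a ≠ a')
      constructor
      · rintro ⟨h1, h2⟩
        exact ⟨eR.injective h1, fun h3 => h2 (by rw [h3])⟩
      · rintro ⟨rfl, h2⟩
        exact ⟨rfl, fun h3 => h2 (sgn_inj _ _ h3)⟩
    · exact key r k' a b'
    · exact key r' k a' b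
    · exact Iff.rfl

/-- Transport along isomorphisms of graphs. -/
def actCongr {X L : Type} [AddCommGroup X] [SemilatticeSup L] [OrderBot L] {S : Sys X L}
    {V V' V₂ V₂' : Type} {G : SimpleGraph V} {H : SimpleGraph V'} {G₂ : SimpleGraph V₂}
    {H₂ : SimpleGraph V₂'} (A : Act S G H) (e : G ≃g G₂) (e' : H ≃g H₂) : Act S G₂ H₂ where
  b M := (e.toEquiv.symm.trans (A.b M)).trans e'.toEquiv
  lv u := A.lv (e.symm u)
  lv' u := A.lv' (e'.symm u)
  c := A.c
  inv M n u hn := by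
    show e' (A.b (M + n) (e.symm u)) = e' (A.b M (e.symm u))
    rw [A.inv M n _ hn]
  lev M u := by
    show A.lv' (e'.symm (e' (A.b M (e.symm u)))) = A.lv (e.symm u)
    rw [RelIso.symm_apply_apply, A.lev]
  size u := A.size _
  iso u u' M hM := by
    show _ ↔ H₂.Adj (e' (A.b M (e.symm u))) (e' (A.b M (e.symm u')))
    rw [e'.map_adj_iff, ← A.iso _ _ M hM, e.symm.map_adj_iff]

theorem actCongr_torsor {X L : Type} [AddCommGroup X] [SemilatticeSup L] [OrderBot L] {S : Sys X L}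
    {V V' V₂ V₂' : Type} {G : SimpleGraph V} {H : SimpleGraph V'} {G₂ : SimpleGraph V₂}
    {H₂ : SimpleGraph V₂'} {A : Act S G H} (hA : A.Torsor) (e : G ≃g G₂) (e' : H ≃g H₂) :
    (actCongr A e e').Torsor := by
  intro M h u
  show e' (A.b (M + h) (e.symm u)) = e' (A.b M (e.symm (e ((A.b 0).symm (e'.symm
    (e' (A.b h (e.symm u))))))))
  rw [RelIso.symm_apply_apply, RelIso.symm_apply_apply, hA]

/-! ### The Hadamard property -/

theorem sum_sgn_zero {C : Type} [Fintype C] (f : C → F2) (π : C ≃ C)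
    (h : ∀ k, f (π k) = f k + 1) : ∑ k, ((sgn (f k) : ℤˣ) : ℤ) = 0 := by
  have h1 : ∑ k, ((sgn (f (π k)) : ℤˣ) : ℤ) = ∑ k, ((sgn (f k) : ℤˣ) : ℤ) :=
    Equiv.sum_comp π fun k => ((sgn (f k) : ℤˣ) : ℤ)
  have h2 : ∀ k, ((sgn (f (π k)) : ℤˣ) : ℤ) = -((sgn (f k) : ℤˣ) : ℤ) := by
    intro k
    rw [h, sgn_add, sgn_one, mul_neg, mul_one, Units.val_neg]
  rw [Finset.sum_congr rfl fun k _ => h2 k, Finset.sum_neg_distrib] at h1
  linarith

/-- A matrix of exponents whose rows differ by balanced functions gives a Hadamard matrix. -/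
theorem isHadamard_of {n : ℕ} (hn : 0 < n) {R C : Type} (h : R → C → F2)
    (hbal : ∀ r r', r ≠ r' → ∃ π : C ≃ C, ∀ k, h r (π k) + h r' (π k) = h r k + h r' k + 1)
    (eR : R ≃ Fin n) (eC : C ≃ Fin n) : (hmat h eR eC).IsHadamard := by
  refine IsHadamard.of_mul_conjTranspose (fun i j => ?_) ?_ ?_
  · rw [Unitary.mem_iff_eq_one_or_eq_neg_one]
    unfold hmat
    rcases Int.units_eq_one_or (sgn (h (eR.symm i) (eC.symm j))) with h1 | h1
    · left
      rw [h1]
      rfl
    · right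
      rw [h1]
      rfl
  · funext i i'
    rw [Matrix.mul_apply]
    simp only [Matrix.conjTranspose_apply, star_trivial, Matrix.smul_apply, smul_eq_mul]
    unfold hmat
    have h1 : ∀ j, ((sgn (h (eR.symm i) (eC.symm j)) : ℤˣ) : ℤ) *
        ((sgn (h (eR.symm i') (eC.symm j)) : ℤˣ) : ℤ) =
        ((sgn (h (eR.symm i) (eC.symm j) + h (eR.symm i') (eC.symm j)) : ℤˣ) : ℤ) := by
      intro j
      rw [sgn_add, Units.val_mul]
    rw [Finset.sum_congr rfl fun j _ => h1 j]
    by_cases hi : i = i'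
    · subst hi
      rw [Matrix.one_apply_eq, mul_one]
      have h2 : ∀ j, ((sgn (h (eR.symm i) (eC.symm j) + h (eR.symm i) (eC.symm j)) : ℤˣ) : ℤ) =
          1 := by
        intro j
        rw [add_self2, sgn_zero]
        rfl
      rw [Finset.sum_congr rfl fun j _ => h2 j, Finset.sum_const, Finset.card_univ, nsmul_eq_mul,
        mul_one]
    · rw [Matrix.one_apply_ne hi, mul_zero]
      obtain ⟨π, hπ⟩ := hbal (eR.symm i) (eR.symm i') (fun h => hi (eR.symm.injective h))
      refine sum_sgn_zero _ ((eC.symm.trans π).trans eC) fun j => ?_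
      show h (eR.symm i) (eC.symm (eC (π (eC.symm j)))) +
        h (eR.symm i') (eC.symm (eC (π (eC.symm j)))) = _
      rw [Equiv.symm_apply_apply]
      exact hπ _
  · rw [Fintype.card_fin]
    exact IsRegular.of_ne_zero (by exact_mod_cast hn.ne')

theorem hF_balanced {V : Type} [AddCommGroup V] [Module F2 V] [Finite V] (G : V → Fin 6 → F2)
    (r r' : V × U) (hr : r ≠ r') : ∃ π : U × Dual F2 V ≃ U × Dual F2 V,
      ∀ k, hF G r (π k) + hF G r' (π k) = hF G r k + hF G r' k + 1 := by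
  obtain ⟨v, s⟩ := r
  obtain ⟨v', s'⟩ := r'
  by_cases hv : v = v'
  · subst hv
    have hs : s + s' ≠ 0 := by
      intro h0
      apply hr
      have h1 : s + s' + s' = s' := by rw [h0, zero_add]
      rw [add_assoc, vadd_self, add_zero] at h1
      rw [h1]
    obtain ⟨i, hi⟩ : ∃ i, (s + s') i ≠ 0 := by
      by_contra h
      push Not at h
      exact hs (funext h)
    have hi1 : (s + s') i = 1 := by
      have h1 : ∀ x : F2, x ≠ 0 → x = 1 := by decide
      exact h1 _ hi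
    refine ⟨Equiv.prodCongr (Equiv.addRight (Pi.single i 1)) (Equiv.refl _), fun k => ?_⟩
    rw [hF_rows, hF_rows]
    show (s + s') ⬝ᵥ (k.1 + Pi.single i 1) = _
    rw [dotProduct_add, dotProduct_single, mul_one, hi1]
  · have hv0 : v + v' ≠ 0 := by
      intro h0
      apply hv
      have h1 : v + v' + v' = v' := by rw [h0, zero_add]
      rw [add_assoc, vadd_self, add_zero] at h1
      rw [h1]
    obtain ⟨t0, ht0⟩ : ∃ t : Dual F2 V, t (v + v') ≠ 0 := by
      by_contra h
      push Not at h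
      exact hv0 ((Module.forall_dual_apply_eq_zero_iff F2 _).1 h)
    have ht1 : t0 (v + v') = 1 := by
      have h1 : ∀ x : F2, x ≠ 0 → x = 1 := by decide
      exact h1 _ ht0
    rw [map_add] at ht1
    refine ⟨Equiv.prodCongr (Equiv.refl _) (Equiv.addRight t0), fun k => ?_⟩
    show s ⬝ᵥ k.1 + (k.2 v + t0 v) + ∑ i, G v i * QU k.1 i +
      (s' ⬝ᵥ k.1 + (k.2 v' + t0 v') + ∑ i, G v' i * QU k.1 i) =
      s ⬝ᵥ k.1 + k.2 v + ∑ i, G v i * QU k.1 i +
      (s' ⬝ᵥ k.1 + k.2 v' + ∑ i, G v' i * QU k.1 i) + 1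
    linear_combination ht1

/-- An equivalence of the matrices gives an equivalence of the exponents. -/
theorem exps_of_equiv {n : ℕ} {R C : Type} (h h' : R → C → F2) (eR : R ≃ Fin n) (eC : C ≃ Fin n)
    (heq : HadEquiv (hmat h eR eC) (hmat h' eR eC)) :
    ∃ (ρ : R ≃ R) (κ : C ≃ C) (e : R → F2) (d : C → F2),
      ∀ r k, h' (ρ r) (κ k) = h r k + e r + d k := by
  obtain ⟨ρ, κ, e, d, heq⟩ := heq
  refine ⟨(eR.trans ρ).trans eR.symm, (eC.trans κ).trans eC.symm, fun r => sgnE.symm (e (eR r)),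
    fun k => sgnE.symm (d (eC k)), fun r k => ?_⟩
  apply sgn_inj
  have h1 := heq (eR r) (eC k)
  unfold hmat at h1
  simp only [Equiv.symm_apply_apply] at h1
  show sgn (h' (eR.symm (ρ (eR r))) (eC.symm (κ (eC k)))) = _
  rw [sgn_add, sgn_add, ← sgnE_apply (sgnE.symm _), ← sgnE_apply (sgnE.symm _),
    Equiv.apply_symm_apply, Equiv.apply_symm_apply]
  rw [← Units.val_inj, h1, Units.val_mul, Units.val_mul]
  ring

end Pool.Agent.N616.HD
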