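import Pool.Agent.N616.HD.Lin

/-!
# The trace obstruction in all characteristics
-/

set_option autoImplicit false
set_option linter.unusedSectionVars false

namespace Pool.Agent.N616.HD

open Module Pool.Agent.W879.GW Matrix

section

variable {F : Type} [Field F] {a : ℕ}

/-- Traces of the products with symmetric maps. -/
theorem trace_qq_symm (R : Fin 6 → Matrix (Fin a) (Fin a) F) (i : Fin 6)
    (N : (Fin a → F) →ₗ[F] Dual F (Fin a → F)) (hN : ∀ x y, N x y = N y x) :
    LinearMap.trace F (Fin a → F) (qq R i ∘ₗ N) = 0 := by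
  let e := dotProductEquiv F (Fin a)
  let N' : (Fin a → F) →ₗ[F] (Fin a → F) := (e.symm : Dual F (Fin a → F) →ₗ[F] (Fin a → F)) ∘ₗ N
  have h1 : qq R i ∘ₗ N = (R i - (R i)ᵀ).mulVecLin ∘ₗ N' := rfl
  have h2 : N' = Matrix.toLin' (LinearMap.toMatrix' N') := (Matrix.toLin'_toMatrix' N').symm
  have hsym : (LinearMap.toMatrix' N')ᵀ = LinearMap.toMatrix' N' := by
    ext j k
    rw [Matrix.transpose_apply, LinearMap.toMatrix'_apply, LinearMap.toMatrix'_apply]
    have h3 : ∀ x y : Fin a → F, N x y = (N' x) ⬝ᵥ y := by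
      intro x y
      have h4 : e (N' x) = N x := e.apply_symm_apply (N x)
      rw [← h4]
      rfl
    have h5 := hN (Pi.single j 1) (Pi.single k 1)
    rw [h3, h3, dotProduct_single, dotProduct_single, mul_one, mul_one] at h5
    exact h5
  rw [h1, h2, ← Matrix.toLin'_apply', ← Matrix.toLin'_mul]
  set n := LinearMap.toMatrix' N' with hn
  rw [show LinearMap.trace F (Fin a → F) (Matrix.toLin' ((R i - (R i)ᵀ) * n)) =
    Matrix.trace ((R i - (R i)ᵀ) * n) from Matrix.trace_toLin'_eq _]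
  rw [Matrix.sub_mul, Matrix.trace_sub]
  have h7 : Matrix.trace ((R i)ᵀ * n) = Matrix.trace (R i * n) := by
    rw [← Matrix.trace_transpose, Matrix.transpose_mul, Matrix.transpose_transpose, hsym,
      Matrix.trace_mul_comm]
  rw [h7, sub_self]

theorem exists_expander2 [Finite F] (m : ℕ) :
    ∃ q : Fin 6 → (Dual F (Fin (6 * m) → F) →ₗ[F] (Fin (6 * m) → F)),
      (∀ (i : Fin 6) (φ : Dual F (Fin (6 * m) → F)), φ (q i φ) = 0) ∧ Expands q m ∧
      ∀ (i : Fin 6) (N : (Fin (6 * m) → F) →ₗ[F] Dual F (Fin (6 * m) → F)),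
        (∀ x y, N x y = N y x) → LinearMap.trace F (Fin (6 * m) → F) (q i ∘ₗ N) = 0 := by
  obtain ⟨R, hR⟩ := exists_good (F := F) m rfl
  refine ⟨qq R, qq_alt R, ?_, fun i N hN => trace_qq_symm R i N hN⟩
  intro u hu v hv W hW
  refine hR u hu (fun j => (dotProductEquiv F (Fin (6 * m))).symm (v j)) ?_ W hW
  exact hv.map' ((dotProductEquiv F (Fin (6 * m))).symm :
    Dual F (Fin (6 * m) → F) →ₗ[F] (Fin (6 * m) → F)) (LinearEquiv.ker _)

end

section

variable {F A : Type} [Field F] [AddCommGroup A] [Module F A] {g : ℕ}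
  [FiniteDimensional F A] {q : Fin g → (Dual F A →ₗ[F] A)}

/-- The trace obstruction. -/
theorem obstruction2
    (htr : ∀ (i : Fin g) (N : A →ₗ[F] Dual F A), (∀ x y, N x y = N y x) →
      LinearMap.trace F A (q i ∘ₗ N) = 0)
    (M : A →ₗ[F] (Fin g → Dual F A)) (hM : ∀ x, tot q (M x) = 0) (φ₀ : Dual F A)
    (c₀ : Fin g → Dual F A) (h0 : φ₀ (tot q c₀) ≠ 0) : T M ≠ T (φ₀.smulRight c₀) := by
  intro hT
  let N : A →ₗ[F] (Fin g → Dual F A) := φ₀.smulRight c₀ - M
  have hs : ∀ i x y, N x i y = N y i x := by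
    intro i x y
    have h1 : T M x y i = T (φ₀.smulRight c₀) x y i := by rw [hT]
    rw [T_apply, T_apply] at h1
    show (φ₀.smulRight c₀ x) i y - M x i y = (φ₀.smulRight c₀ y) i x - M y i x
    linear_combination -h1
  have h3 : tot q ∘ₗ N = φ₀.smulRight (tot q c₀) := by
    ext x
    show tot q (φ₀ x • c₀ - M x) = φ₀ x • tot q c₀
    rw [LinearMap.map_sub (tot q) (φ₀ x • c₀) (M x), hM, sub_zero, map_smul]
  have h4 : tot q ∘ₗ N = ∑ i, q i ∘ₗ (LinearMap.proj i ∘ₗ N) := by
    ext x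
    simp [tot_apply]
  have h5 : LinearMap.trace F A (tot q ∘ₗ N) = 0 := by
    rw [h4, map_sum]
    refine Finset.sum_eq_zero fun i _ => ?_
    exact htr i (LinearMap.proj i ∘ₗ N) (fun x y => hs i x y)
  rw [h3, LinearMap.trace_smulRight] at h5
  exact h0 h5

end

end Pool.Agent.N616.HD
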