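import Pool.Agent.N616.HD.Abs3
import Pool.Agent.N616.HD.Obs
import Pool.Agent.W879.GW.NonIso

/-!
# The two Hadamard matrices are not equivalent
-/

set_option autoImplicit false
set_option linter.unusedSectionVars false

namespace Pool.Agent.N616.HD

open Module Pool.Agent.W879.GW

variable {A : Type} [AddCommGroup A] [Module F2 A] [Finite A]
  {q : Fin 6 → (Dual F2 A →ₗ[F2] A)} {B : Submodule F2 (Fin 6 → Dual F2 A)}

/-- The quadratic map of `N`. -/
def GG (B : Submodule F2 (Fin 6 → Dual F2 A)) (N : A →ₗ[F2] (Fin 6 → Dual F2 A)) (v : A × B) :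
    Fin 6 → F2 :=
  fun i => (v.2 : Fin 6 → Dual F2 A) i v.1 + N v.1 i v.1

/-- The polar form of `N`. -/
def om (B : Submodule F2 (Fin 6 → Dual F2 A)) (N : A →ₗ[F2] (Fin 6 → Dual F2 A)) :
    (A × B) →ₗ[F2] (A × B) →ₗ[F2] (Fin 6 → F2) :=
  LinearMap.mk₂ F2 (fun v v' => evB (v.2 : Fin 6 → Dual F2 A) v'.1 +
      evB (v'.2 : Fin 6 → Dual F2 A) v.1 + T N v.1 v'.1)
    (fun v w v' => by
      simp only [Prod.snd_add, Prod.fst_add, Submodule.coe_add, map_add, LinearMap.add_apply]
      abel)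
    (fun a v v' => by
      simp only [Prod.smul_snd, Prod.smul_fst, Submodule.coe_smul, map_smul, LinearMap.smul_apply,
        smul_add])
    (fun v v' w => by
      simp only [Prod.snd_add, Prod.fst_add, Submodule.coe_add, map_add, LinearMap.add_apply]
      abel)
    (fun a v v' => by
      simp only [Prod.smul_snd, Prod.smul_fst, Submodule.coe_smul, map_smul, LinearMap.smul_apply,
        smul_add])

theorem om_apply (N : A →ₗ[F2] (Fin 6 → Dual F2 A)) (v v' : A × B) (i : Fin 6) :
    om B N v v' i = (v.2 : Fin 6 → Dual F2 A) i v'.1 + (v'.2 : Fin 6 → Dual F2 A) i v.1 +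
      (N v.1 i v'.1 - N v'.1 i v.1) := rfl

theorem GG_polar (N : A →ₗ[F2] (Fin 6 → Dual F2 A)) : Polar (GG B N) (om B N) := by
  intro v v'
  funext i
  rw [Pi.add_apply, Pi.add_apply, om_apply]
  unfold GG
  simp only [Prod.snd_add, Prod.fst_add, Submodule.coe_add, map_add, LinearMap.add_apply,
    Pi.add_apply]
  linear_combination (N v'.1 i v.1) * two0

/-- The map from `B` to `A`. -/
def lm (L : (A × B) ≃+ (A × B)) (c : B) : A := (L (0, c)).1

theorem lm_add (L : (A × B) ≃+ (A × B)) (c d : B) : lm L (c + d) = lm L c + lm L d := by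
  unfold lm
  have h : ((0, c + d) : A × B) = (0, c) + (0, d) := by
    rw [Prod.mk_add_mk, add_zero]
  rw [h, map_add, Prod.fst_add]

theorem lm_zero (halt : ∀ (i : Fin 6) (φ : Dual F2 A), φ (q i φ) = 0)
    {m : ℕ} (hE : Expands q m) (ha : finrank F2 A < (6 - 1) * (2 * m))
    (hB : B = LinearMap.ker (tot q)) (N : A →ₗ[F2] (Fin 6 → Dual F2 A))
    (L : (A × B) ≃+ (A × B)) (hL : ∀ v v', om B N v v' = 0 → om B 0 (L v) (L v') = 0)
    (u : B) : lm L u = 0 := by
  classical
  by_contra hne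
  have : FiniteDimensional F2 A := Module.Finite.of_finite
  have : Finite (Dual F2 A) := Module.finite_of_finite F2
  have : Finite (Fin 6 → Dual F2 A) := inferInstance
  have : Finite B := inferInstance
  obtain ⟨W, hWmem, h6'⟩ := exists_range (p := 2) A (lm L) (lm_add L)
  have hW : W ≠ ⊥ := by
    intro h
    have h1 : lm L u ∈ W := (hWmem _).2 ⟨u, rfl⟩
    rw [h, Submodule.mem_bot] at h1
    exact hne h1
  have hdim := dim_ineq halt hE (by norm_num) ha W hW
  rw [← hB] at hdim
  -- the kernel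
  have hCW : ∀ v, lm L v = 0 → (((L (0, v)).2 : B) : Fin 6 → Dual F2 A) ∈
      (B ⊓ CW W : Submodule F2 (Fin 6 → Dual F2 A)) := by
    intro v hv
    refine ⟨((L (0, v)).2).2, ?_⟩
    intro i x hx
    obtain ⟨w, hw⟩ := (hWmem x).1 hx
    have hv0 : (L (0, v)).1 = 0 := hv
    have hw0 : (L (0, w)).1 = x := hw
    have h1 : om B N (0, v) (0, w) = 0 := by
      funext j
      rw [om_apply]
      simp
    have h2 := congrFun (hL _ _ h1) i
    rw [om_apply, hv0, hw0] at h2
    simpa using h2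
  let κ : {v // lm L v = 0} → (B ⊓ CW W : Submodule F2 (Fin 6 → Dual F2 A)) :=
    fun v => ⟨_, hCW v.1 v.2⟩
  have hκ : Function.Injective κ := by
    intro v w hvw
    have h1 : (((L (0, v.1)).2 : B) : Fin 6 → Dual F2 A) =
        (((L (0, w.1)).2 : B) : Fin 6 → Dual F2 A) :=
      congrArg (fun z : (B ⊓ CW W : Submodule F2 (Fin 6 → Dual F2 A)) =>
        (z : Fin 6 → Dual F2 A)) hvw
    have hv0 : (L (0, v.1)).1 = 0 := v.2
    have hw0 : (L (0, w.1)).1 = 0 := w.2
    have h3 : L (0, v.1) = L (0, w.1) := Prod.ext (hv0.trans hw0.symm) (Subtype.ext h1)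
    have h4 := L.injective h3
    exact Subtype.ext (congrArg Prod.snd h4)
  have hcard : Nat.card {v // lm L v = 0} ≤
      Nat.card (B ⊓ CW W : Submodule F2 (Fin 6 → Dual F2 A)) :=
    Nat.card_le_card_of_injective κ hκ
  have h7 : Nat.card W = 2 ^ finrank F2 W := by
    rw [Module.natCard_eq_pow_finrank (K := F2), Nat.card_zmod]
  have h8 : Nat.card B = 2 ^ finrank F2 B := by
    rw [Module.natCard_eq_pow_finrank (K := F2), Nat.card_zmod]
  have h9 : Nat.card (B ⊓ CW W : Submodule F2 (Fin 6 → Dual F2 A)) =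
      2 ^ finrank F2 (B ⊓ CW W : Submodule F2 (Fin 6 → Dual F2 A)) := by
    rw [Module.natCard_eq_pow_finrank (K := F2), Nat.card_zmod]
  have h10 : Nat.card B ≤ Nat.card (B ⊓ CW W : Submodule F2 (Fin 6 → Dual F2 A)) *
      Nat.card W := by
    rw [← h6']
    exact Nat.mul_le_mul_right _ hcard
  rw [h7, h8, h9, ← pow_add, Nat.pow_le_pow_iff_right (by norm_num)] at h10
  omega

theorem not_lin (halt : ∀ (i : Fin 6) (φ : Dual F2 A), φ (q i φ) = 0)
    (htr : ∀ (i : Fin 6) (N : A →ₗ[F2] Dual F2 A), (∀ x y, N x y = N y x) →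
      LinearMap.trace F2 A (q i ∘ₗ N) = 0)
    {m : ℕ} (hE : Expands q m) (ha : finrank F2 A < (6 - 1) * (2 * m))
    (hB : B = LinearMap.ker (tot q)) (φ₀ : Dual F2 A) (c₀ : Fin 6 → Dual F2 A)
    (h0 : φ₀ (tot q c₀) ≠ 0) (L : (A × B) ≃+ (A × B))
    (hL : ∀ v v', om B (φ₀.smulRight c₀) v v' = 0 ↔ om B 0 (L v) (L v') = 0) : False := by
  have : FiniteDimensional F2 A := Module.Finite.of_finite
  have hLz := lm_zero halt hE ha hB (φ₀.smulRight c₀) L (fun v v' => (hL v v').1)
  let a1 : A →+ A :=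
    { toFun := fun x => (L.symm (x, 0)).1
      map_zero' := by
        have h : ((0 : A), (0 : B)) = 0 := rfl
        rw [h, map_zero]
        rfl
      map_add' := fun x y => by
        have h : ((x + y, 0) : A × B) = (x, 0) + (y, 0) := by
          rw [Prod.mk_add_mk, add_zero]
        rw [h, map_add, Prod.fst_add] }
  let b1 : A →+ B :=
    { toFun := fun x => (L.symm (x, 0)).2
      map_zero' := by
        have h : ((0 : A), (0 : B)) = 0 := rfl
        rw [h, map_zero]
        rfl
      map_add' := fun x y => by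
        have h : ((x + y, 0) : A × B) = (x, 0) + (y, 0) := by
          rw [Prod.mk_add_mk, add_zero]
        rw [h, map_add, Prod.snd_add] }
  have hab : ∀ x, L.symm (x, 0) = (a1 x, b1 x) := fun x => rfl
  have hinj : Function.Injective a1 := by
    rw [injective_iff_map_eq_zero]
    intro x hx
    have h1 := hab x
    rw [hx] at h1
    have h2 : L (0, b1 x) = (x, 0) := by
      rw [← h1, AddEquiv.apply_symm_apply]
    have h3 := hLz (b1 x)
    unfold lm at h3
    rw [h2] at h3
    exact h3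
  have hrel : ∀ x y i, ((b1 x : B) : Fin 6 → Dual F2 A) i (a1 y) +
      ((b1 y : B) : Fin 6 → Dual F2 A) i (a1 x) +
      T (φ₀.smulRight c₀) (a1 x) (a1 y) i = 0 := by
    intro x y i
    have h1 : om B 0 (L (L.symm (x, 0))) (L (L.symm (y, 0))) = 0 := by
      rw [AddEquiv.apply_symm_apply, AddEquiv.apply_symm_apply]
      funext j
      rw [om_apply]
      simp
    exact congrFun ((hL _ _).2 h1) i
  have hbij : Function.Bijective a1 := Finite.injective_iff_bijective.1 hinj
  let a2 : A ≃+ A := AddEquiv.ofBijective a1 hbij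
  have ha2 : ∀ x, a1 (a2.symm x) = x := fun x => a2.apply_symm_apply x
  let M : A →+ (Fin 6 → Dual F2 A) :=
    { toFun := fun x => ((b1 (a2.symm x) : B) : Fin 6 → Dual F2 A)
      map_zero' := by
        rw [map_zero, map_zero]
        simp
      map_add' := fun x y => by
        rw [map_add, map_add, Submodule.coe_add] }
  have hM : ∀ x, tot q (M x) = 0 := by
    intro x
    have h1 : M x ∈ B := (b1 (a2.symm x)).2
    rw [hB] at h1
    exact LinearMap.mem_ker.1 h1
  refine obstruction2 htr (M.toZModLinearMap 2) hM φ₀ c₀ h0 ?_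
  refine LinearMap.ext fun x => LinearMap.ext fun y => funext fun i => ?_
  have h1 := hrel (a2.symm x) (a2.symm y) i
  rw [ha2, ha2] at h1
  rw [T_apply]
  show ((b1 (a2.symm x) : B) : Fin 6 → Dual F2 A) i y -
    ((b1 (a2.symm y) : B) : Fin 6 → Dual F2 A) i x = T (φ₀.smulRight c₀) x y i
  linear_combination h1 - (((b1 (a2.symm y) : B) : Fin 6 → Dual F2 A) i x +
    T (φ₀.smulRight c₀) x y i) * two0

theorem om_N1 (halt : ∀ (i : Fin 6) (φ : Dual F2 A), φ (q i φ) = 0) {m : ℕ} (hE : Expands q m)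
    (hm : 1 ≤ m) (hA : Nontrivial A) (hB : B = LinearMap.ker (tot q)) (γ : Fin 6 → F2)
    (hγ : γ ≠ 0) : ∃ v v', ∑ i, γ i * om B 0 v v' i ≠ 0 := by
  have : FiniteDimensional F2 A := Module.Finite.of_finite
  by_contra hcon
  push Not at hcon
  obtain ⟨x, hx⟩ := exists_ne (0 : A)
  obtain ⟨i0, hi0⟩ : ∃ i, γ i ≠ 0 := by
    by_contra h
    push Not at h
    exact hγ (funext h)
  let η : Dual F2 (Fin 6 → Dual F2 A) := ∑ i, γ i • (Dual.eval F2 A x ∘ₗ LinearMap.proj i)
  have hη : ∀ c, η c = ∑ i, γ i * c i x := by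
    intro c
    simp [η]
  have h1 : η ∈ (LinearMap.ker (tot q)).dualAnnihilator := by
    rw [Submodule.mem_dualAnnihilator]
    intro c hc
    rw [← hB] at hc
    have h2 := hcon (x, 0) (0, ⟨c, hc⟩)
    simp only [om_apply] at h2
    rw [hη]
    simpa using h2
  rw [← LinearMap.range_dualMap_eq_dualAnnihilator_ker] at h1
  obtain ⟨ψ, hψ⟩ := h1
  have h3 : ∀ i, q i ψ = γ i • x := by
    intro i
    rw [← sub_eq_zero]
    refine (Module.forall_dual_apply_eq_zero_iff F2 _).1 fun φ => ?_
    have h4 : ψ (tot q (Pi.single i φ)) = η (Pi.single i φ) :=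
      LinearMap.congr_fun hψ (Pi.single i φ)
    rw [tot_single, hη, Finset.sum_eq_single i, Pi.single_eq_same] at h4
    · rw [map_sub, map_smul, smul_eq_mul, ← h4, alt_anti halt i φ ψ]
      linear_combination (φ (q i ψ)) * two0
    · intro j _ hj
      rw [Pi.single_eq_of_ne hj, LinearMap.zero_apply, mul_zero]
    · intro h
      exact absurd (Finset.mem_univ i) h
  have hψ0 : ψ ≠ 0 := by
    intro h
    have h4 := h3 i0
    rw [h, map_zero] at h4
    rcases smul_eq_zero.1 h4.symm with h5 | h5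
    · exact hi0 h5
    · exact hx h5
  have h5 := hE 1 hm (fun _ => ψ) (by
    rw [linearIndependent_unique_iff]
    exact hψ0) (Submodule.span F2 {x}) (by
      intro i j
      show q i ψ ∈ _
      rw [h3]
      exact Submodule.smul_mem _ _ (Submodule.mem_span_singleton_self x))
  have h6 := finrank_span_singleton (K := F2) hx
  omega

theorem om_N2 (halt : ∀ (i : Fin 6) (φ : Dual F2 A), φ (q i φ) = 0) {m : ℕ} (hE : Expands q m)
    (ha : finrank F2 A < (6 - 1) * (2 * m)) (hB : B = LinearMap.ker (tot q)) (u : A × B)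
    (hu : u ≠ 0) : ∃ z, om B 0 u z ≠ 0 := by
  have : FiniteDimensional F2 A := Module.Finite.of_finite
  by_contra hcon
  push Not at hcon
  apply hu
  have hc : (u.2 : Fin 6 → Dual F2 A) = 0 := by
    funext i
    refine LinearMap.ext fun y => ?_
    have h1 := congrFun (hcon (y, 0)) i
    rw [om_apply] at h1
    simpa using h1
  have hx : u.1 = 0 := by
    by_contra hx
    have hW : Submodule.span F2 {u.1} ≠ ⊥ := by
      rw [Ne, Submodule.span_singleton_eq_bot]
      exact hx
    have hdim := dim_ineq halt hE (by norm_num) ha _ hW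
    have hle : LinearMap.ker (tot q) ≤ (LinearMap.ker (tot q) ⊓ CW (Submodule.span F2 {u.1}) :
        Submodule F2 (Fin 6 → Dual F2 A)) := by
      intro d hd
      refine ⟨hd, ?_⟩
      intro i x hx
      obtain ⟨a, rfl⟩ := Submodule.mem_span_singleton.1 hx
      rw [map_smul]
      have hd' := hd
      rw [← hB] at hd'
      have h1 := congrFun (hcon (0, ⟨d, hd'⟩)) i
      rw [om_apply] at h1
      have h2 : d i u.1 = 0 := by simpa using h1
      rw [h2, smul_zero]
    have h3 := Submodule.finrank_mono hle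
    omega
  exact Prod.ext hx (Subtype.ext hc)

/-- The two Hadamard matrices are not equivalent. -/
theorem not_equiv (halt : ∀ (i : Fin 6) (φ : Dual F2 A), φ (q i φ) = 0)
    (htr : ∀ (i : Fin 6) (N : A →ₗ[F2] Dual F2 A), (∀ x y, N x y = N y x) →
      LinearMap.trace F2 A (q i ∘ₗ N) = 0)
    {m : ℕ} (hE : Expands q m) (hm : 1 ≤ m) (hA : Nontrivial A)
    (ha : finrank F2 A < (6 - 1) * (2 * m))
    (hB : B = LinearMap.ker (tot q)) (φ₀ : Dual F2 A) (c₀ : Fin 6 → Dual F2 A)
    (h0 : φ₀ (tot q c₀) ≠ 0)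
    (ρ : (A × B) × U ≃ (A × B) × U) (κ : U × Dual F2 (A × B) ≃ U × Dual F2 (A × B))
    (e : (A × B) × U → F2) (d : U × Dual F2 (A × B) → F2)
    (h : ∀ r k, hF (GG B 0) (ρ r) (κ k) = hF (GG B (φ₀.smulRight c₀)) r k + e r + d k) :
    False := by
  have : Finite (Dual F2 A) := Module.finite_of_finite F2
  have : Finite (Fin 6 → Dual F2 A) := inferInstance
  have : Finite B := inferInstance
  obtain ⟨L, hL⟩ := main_abs (GG_polar (φ₀.smulRight c₀)) (GG_polar 0)
    (om_N1 halt hE hm hA hB) (om_N2 halt hE ha hB) ρ κ e d h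
  exact not_lin halt htr hE ha hB φ₀ c₀ h0 L hL

end Pool.Agent.N616.HD
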