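import Pool.Agent.N616.HD.IsoEquiv
import Pool.Agent.W893.PR.Upper
import Pool.Agent.W185.SRG.Defs

/-!
# The upper bound: logarithmic dimension identifies the graph of a Hadamard matrix
-/

set_option autoImplicit false
set_option linter.unusedSectionVars false

namespace Pool.Agent.N616.HD

open Finset Matrix Pool.Agent.W185.SRG

/-- If `b + 2 ≤ k` and `G` has a separating sequence of length `b`, then the `k`-dimensional
method decides isomorphism with `G`. -/
theorem iso_of_base {V W : Type} [Fintype V] [Fintype W] (G : SimpleGraph V) (H : SimpleGraph W)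
    (b k : ℕ) (hk : b + 2 ≤ k) [Nonempty V]
    (c : Fin b → V) (hc : ∀ u v, (∀ l, G.Adj u (c l) ↔ G.Adj v (c l)) → u = v)
    (h : WLEquivalent k G H) : Nonempty (G ≃g H) := by
  classical
  obtain ⟨ψ, hψ⟩ := h
  let last : Fin k := ⟨k - 1, by omega⟩
  let pen : Fin k := ⟨b, by omega⟩
  have hpl : pen ≠ last := by
    intro h
    have h1 := congrArg Fin.val h
    simp only [pen, last] at h1
    omega
  let u : Fin k → V := fun i => if h : i.1 < b then c ⟨i.1, h⟩ else Classical.arbitrary V
  have hu : ∀ l : Fin b, u ⟨l.1, by omega⟩ = c l := by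
    intro l
    simp [u]
  have hl1 : ∀ l : Fin b, (⟨l.1, by omega⟩ : Fin k) ≠ last := by
    intro l h
    have h1 := congrArg Fin.val h
    simp only [last] at h1
    have := l.2
    omega
  have hl2 : ∀ l : Fin b, (⟨l.1, by omega⟩ : Fin k) ≠ pen := by
    intro l h
    have h1 := congrArg Fin.val h
    simp only [pen] at h1
    have := l.2
    omega
  obtain ⟨v, hv⟩ : ∃ v, v = ψ u := ⟨_, rfl⟩
  have h2 : wl G k 2 u = wl H k 2 v := by
    rw [hv]
    exact hψ 2 u
  have hv2 : (univ : Finset V).val.map (fun x =>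
      (fun i => wl G k 1 (Function.update u i x) : Fin k → Col k 1)) =
      (univ : Finset W).val.map (fun x =>
      (fun i => wl H k 1 (Function.update v i x) : Fin k → Col k 1)) :=
    congrArg Prod.snd h2
  have hcardVW : Fintype.card V = Fintype.card W := by
    have := congrArg Multiset.card hv2
    simpa using this
  have hex : ∀ x : V, ∃ y : W,
      wl G k 1 (Function.update u last x) = wl H k 1 (Function.update v last y) := by
    intro x
    have hmem := Multiset.mem_map_of_mem (fun x =>
      (fun i => wl G k 1 (Function.update u i x) : Fin k → Col k 1)) (Finset.mem_univ_val x)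
    rw [hv2, Multiset.mem_map] at hmem
    obtain ⟨y, -, hy⟩ := hmem
    exact ⟨y, (congrFun hy last).symm⟩
  choose f hf using hex
  have hf0 : ∀ x i j, (G.Adj (Function.update u last x i) (Function.update u last x j) ↔
      H.Adj (Function.update v last (f x) i) (Function.update v last (f x) j)) := by
    intro x i j
    have h1 : isoType G k (Function.update u last x) = isoType H k (Function.update v last (f x)) :=
      congrArg Prod.fst (hf x)
    exact iff_of_eq (congrFun (congrFun (congrArg Prod.snd h1) i) j)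
  have hf1 : ∀ x l, (G.Adj x (c l) ↔ H.Adj (f x) (v ⟨l.1, by omega⟩)) := by
    intro x l
    have h1 := hf0 x last ⟨l.1, by omega⟩
    rw [Function.update_self, Function.update_self, Function.update_of_ne (hl1 l),
      Function.update_of_ne (hl1 l), hu] at h1
    exact h1
  have hinj : Function.Injective f := by
    intro x x' hxx
    apply hc
    intro l
    rw [hf1, hf1, hxx]
  have hbij : Function.Bijective f := (Fintype.bijective_iff_injective_and_card f).mpr
    ⟨hinj, hcardVW⟩
  have hadj : ∀ x y, G.Adj x y ↔ H.Adj (f x) (f y) := by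
    intro x y
    have h1 : (univ : Finset V).val.map (fun z =>
        (fun i => wl G k 0 (Function.update (Function.update u last x) i z) : Fin k → Col k 0)) =
        (univ : Finset W).val.map (fun z =>
        (fun i => wl H k 0 (Function.update (Function.update v last (f x)) i z) :
          Fin k → Col k 0)) := congrArg Prod.snd (hf x)
    have hmem := Multiset.mem_map_of_mem (fun z =>
        (fun i => wl G k 0 (Function.update (Function.update u last x) i z) : Fin k → Col k 0))
        (Finset.mem_univ_val y)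
    rw [h1, Multiset.mem_map] at hmem
    obtain ⟨y', -, hy'⟩ := hmem
    have h3 : isoType H k (Function.update (Function.update v last (f x)) pen y') =
        isoType G k (Function.update (Function.update u last x) pen y) := congrFun hy' pen
    have hy : ∀ i j, G.Adj (Function.update (Function.update u last x) pen y i)
        (Function.update (Function.update u last x) pen y j) ↔
        H.Adj (Function.update (Function.update v last (f x)) pen y' i)
        (Function.update (Function.update v last (f x)) pen y' j) := fun i j =>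
      (iff_of_eq (congrFun (congrFun (congrArg Prod.snd h3) i) j)).symm
    obtain ⟨y'', rfl⟩ := hbij.2 y'
    have hyy : y = y'' := by
      apply hc
      intro l
      have h4 := hy pen ⟨l.1, by omega⟩
      rw [Function.update_self, Function.update_self, Function.update_of_ne (hl2 l),
        Function.update_of_ne (hl1 l), Function.update_of_ne (hl2 l),
        Function.update_of_ne (hl1 l), hu] at h4
      rw [h4, hf1]
    have h5 := hy last pen
    rw [Function.update_self, Function.update_self, Function.update_of_ne hpl.symm,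
      Function.update_self, Function.update_of_ne hpl.symm, Function.update_self] at h5
    rw [h5, hyy]
  exact ⟨⟨Equiv.ofBijective f hbij, fun {x y} => (hadj x y).symm⟩⟩

section

variable {n : ℕ} {H : Matrix (Fin n) (Fin n) ℤ}

theorem unit_add_ne {x y b : ℤˣ} (h : x ≠ y) : ¬ (x = b ↔ y = b) := by
  rcases Int.units_eq_one_or x with hx | hx <;> rcases Int.units_eq_one_or y with hy | hy <;>
    rcases Int.units_eq_one_or b with hb | hb <;> subst hx hy hb <;> revert h <;> decide

/-- Two rows differ, up to signs, in half of the columns. -/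
theorem half_rows (hH : H.IsHadamard) (w : Fin n → Fin n → ℤˣ) (hw : ∀ i j, H i j = w i j)
    {i i' : Fin n} (hi : i ≠ i') (a a' : ℤˣ) :
    2 * (univ.filter fun j => a * w i j ≠ a' * w i' j).card = n := by
  have h1 := congrFun (congrFun hH.mul_conjTranspose i) i'
  rw [Matrix.mul_apply] at h1
  simp only [Matrix.conjTranspose_apply, star_trivial, Matrix.smul_apply, smul_eq_mul,
    Matrix.one_apply_ne hi, mul_zero] at h1
  have h2 : ∀ j, H i j * H i' j = ((a * a' : ℤˣ) : ℤ) -
      2 * (if a * w i j ≠ a' * w i' j then ((a * a' : ℤˣ) : ℤ) else 0) := by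
    intro j
    rw [hw, hw]
    rcases Int.units_eq_one_or (w i j) with hx | hx <;>
      rcases Int.units_eq_one_or (w i' j) with hy | hy <;>
      rcases Int.units_eq_one_or a with ha | ha <;>
      rcases Int.units_eq_one_or a' with hb | hb <;> rw [hx, hy, ha, hb] <;> decide
  rw [Finset.sum_congr rfl fun j _ => h2 j, Finset.sum_sub_distrib, ← Finset.mul_sum,
    ← Finset.sum_filter, Finset.sum_const, Finset.sum_const, Finset.card_univ, Fintype.card_fin,
    nsmul_eq_mul, nsmul_eq_mul] at h1
  have h3 : ((a * a' : ℤˣ) : ℤ) *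
      ((n : ℤ) - 2 * ((univ.filter fun j => a * w i j ≠ a' * w i' j).card : ℤ)) = 0 := by
    linear_combination h1
  rcases mul_eq_zero.1 h3 with h4 | h4
  · exact absurd h4 (a * a').ne_zero
  · have h5 : (n : ℤ) = ((2 * (univ.filter fun j => a * w i j ≠ a' * w i' j).card : ℕ) : ℤ) := by
      push_cast
      linear_combination h4
    exact_mod_cast h5.symm

theorem card_units : Fintype.card ℤˣ = 2 := by decide

theorem le_ncard {V : Type} [Finite V] (T : Finset V) (S : Set V) (h : ∀ x ∈ T, x ∈ S) :
    T.card ≤ S.ncard := by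
  rw [← Set.ncard_coe_finset T]
  exact Set.ncard_le_ncard (fun x hx => h x (Finset.mem_coe.1 hx)) (Set.toFinite S)

theorem sep_aux (hH : H.IsHadamard) (u v : (Fin n × ℤˣ) ⊕ (Fin n × ℤˣ)) (huv : u ≠ v) :
    n ≤ ({w | ¬ ((hadGraph H).Adj u w ↔ (hadGraph H).Adj v w)} :
      Set ((Fin n × ℤˣ) ⊕ (Fin n × ℤˣ))).ncard := by
  classical
  have hu := entry_unit hH
  choose w hw using hu
  have adjr : ∀ i a j b, (hadGraph H).Adj (Sum.inl (i, a)) (Sum.inr (j, b)) ↔ a * w i j = b := by
    intro i a j b
    show H i j = a * b ↔ _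
    rw [hw, coe_mul_eq, unit_solve]
    exact eq_comm
  have adjc : ∀ i a j b, (hadGraph H).Adj (Sum.inr (j, b)) (Sum.inl (i, a)) ↔ b * w i j = a := by
    intro i a j b
    show H i j = a * b ↔ _
    rw [hw, mul_comm, coe_mul_eq, unit_solve]
    exact eq_comm
  have adjcc : ∀ x y, (hadGraph H).Adj (Sum.inr x) (Sum.inr y) ↔ False := fun x y => Iff.rfl
  have hwT : ∀ i j, Hᵀ i j = ((w j i : ℤˣ) : ℤ) := fun i j => hw j i
  have mixed : ∀ (i : Fin n) (a : ℤˣ) (x : Fin n × ℤˣ),
      n ≤ ({w | ¬ ((hadGraph H).Adj (Sum.inl (i, a)) w ↔ (hadGraph H).Adj (Sum.inr x) w)} :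
      Set ((Fin n × ℤˣ) ⊕ (Fin n × ℤˣ))).ncard := by
    intro i a x
    have h1 := le_ncard ((univ : Finset (Fin n)).image fun j =>
      (Sum.inr (j, a * w i j) : (Fin n × ℤˣ) ⊕ (Fin n × ℤˣ)))
      {w | ¬ ((hadGraph H).Adj (Sum.inl (i, a)) w ↔ (hadGraph H).Adj (Sum.inr x) w)} (by
        intro y hy
        obtain ⟨j, -, rfl⟩ := Finset.mem_image.1 hy
        show ¬ (_ ↔ _)
        rw [adjr, adjcc]
        simp)
    rw [Finset.card_image_of_injective _ (by
      intro j j' h
      exact congrArg Prod.fst (Sum.inr.inj h)), Finset.card_univ, Fintype.card_fin] at h1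
    exact h1
  rcases u with ⟨i, a⟩ | ⟨j, b⟩ <;> rcases v with ⟨i', a'⟩ | ⟨j', b'⟩
  · by_cases hi : i = i'
    · subst hi
      have ha : a ≠ a' := fun h => huv (by rw [h])
      have h1 := le_ncard ((univ : Finset (Fin n × ℤˣ)).image
        (Sum.inr : _ → (Fin n × ℤˣ) ⊕ (Fin n × ℤˣ)))
        {w | ¬ ((hadGraph H).Adj (Sum.inl (i, a)) w ↔ (hadGraph H).Adj (Sum.inl (i, a')) w)} (by
          intro y hy
          obtain ⟨⟨j, b⟩, -, rfl⟩ := Finset.mem_image.1 hy
          show ¬ (_ ↔ _)
          rw [adjr, adjr]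
          exact unit_add_ne fun h => ha (mul_right_cancel h))
      rw [Finset.card_image_of_injective _ Sum.inr_injective, Finset.card_univ,
        Fintype.card_prod, Fintype.card_fin, card_units] at h1
      omega
    · have h0 := half_rows hH w hw hi a a'
      have h1 := le_ncard (((univ.filter fun j => a * w i j ≠ a' * w i' j) ×ˢ
        (univ : Finset ℤˣ)).image (Sum.inr : _ → (Fin n × ℤˣ) ⊕ (Fin n × ℤˣ)))
        {w | ¬ ((hadGraph H).Adj (Sum.inl (i, a)) w ↔ (hadGraph H).Adj (Sum.inl (i', a')) w)} (by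
          intro y hy
          obtain ⟨⟨j, b⟩, hj, rfl⟩ := Finset.mem_image.1 hy
          rw [Finset.mem_product, Finset.mem_filter] at hj
          show ¬ (_ ↔ _)
          rw [adjr, adjr]
          exact unit_add_ne hj.1.2)
      rw [Finset.card_image_of_injective _ Sum.inr_injective, Finset.card_product,
        Finset.card_univ, card_units] at h1
      omega
  · exact mixed i a _
  · have h1 := mixed i' a' (j, b)
    have h2 : ({w | ¬ ((hadGraph H).Adj (Sum.inr (j, b)) w ↔ (hadGraph H).Adj (Sum.inl (i', a')) w)} :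
        Set ((Fin n × ℤˣ) ⊕ (Fin n × ℤˣ))) =
        {w | ¬ ((hadGraph H).Adj (Sum.inl (i', a')) w ↔ (hadGraph H).Adj (Sum.inr (j, b)) w)} := by
      ext w
      exact not_congr ⟨fun h => h.symm, fun h => h.symm⟩
    rw [h2]
    exact h1
  · by_cases hj : j = j'
    · subst hj
      have hb : b ≠ b' := fun h => huv (by rw [h])
      have h1 := le_ncard ((univ : Finset (Fin n × ℤˣ)).image
        (Sum.inl : _ → (Fin n × ℤˣ) ⊕ (Fin n × ℤˣ)))
        {w | ¬ ((hadGraph H).Adj (Sum.inr (j, b)) w ↔ (hadGraph H).Adj (Sum.inr (j, b')) w)} (by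
          intro y hy
          obtain ⟨⟨i, a⟩, -, rfl⟩ := Finset.mem_image.1 hy
          show ¬ (_ ↔ _)
          rw [adjc, adjc]
          exact unit_add_ne fun h => hb (mul_right_cancel h))
      rw [Finset.card_image_of_injective _ Sum.inl_injective, Finset.card_univ,
        Fintype.card_prod, Fintype.card_fin, card_units] at h1
      omega
    · have h0 := half_rows hH.transpose (fun j i => w i j) (fun j i => hw i j) hj b b'
      have h1 := le_ncard (((univ.filter fun i => b * w i j ≠ b' * w i j') ×ˢ
        (univ : Finset ℤˣ)).image (Sum.inl : _ → (Fin n × ℤˣ) ⊕ (Fin n × ℤˣ)))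
        {w | ¬ ((hadGraph H).Adj (Sum.inr (j, b)) w ↔ (hadGraph H).Adj (Sum.inr (j', b')) w)} (by
          intro y hy
          obtain ⟨⟨i, a⟩, hi, rfl⟩ := Finset.mem_image.1 hy
          rw [Finset.mem_product, Finset.mem_filter] at hi
          show ¬ (_ ↔ _)
          rw [adjc, adjc]
          exact unit_add_ne hi.1.2)
      rw [Finset.card_image_of_injective _ Sum.inl_injective, Finset.card_product,
        Finset.card_univ, card_units] at h1
      omega

/-- The upper bound. -/
theorem upper (hn : 0 < n) (hH : H.IsHadamard) {W : Type} [Fintype W] (G' : SimpleGraph W)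
    {k : ℕ} (hk : 5 * Nat.clog 2 n + 12 ≤ k) (h : WLEquivalent k (hadGraph H) G') :
    Nonempty (hadGraph H ≃g G') := by
  classical
  have hcard : Fintype.card ((Fin n × ℤˣ) ⊕ (Fin n × ℤˣ)) = 4 * n := by
    rw [Fintype.card_sum, Fintype.card_prod, Fintype.card_fin, card_units]
    ring
  have : Nonempty ((Fin n × ℤˣ) ⊕ (Fin n × ℤˣ)) := ⟨Sum.inl (⟨0, hn⟩, 1)⟩
  have hclog : n ≤ 2 ^ Nat.clog 2 n := Nat.le_pow_clog (by norm_num) n
  set L : ℕ := Nat.clog 2 n + 2 with hL
  have hL2 : 4 * n ≤ 2 ^ L := by
    rw [hL, pow_add]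
    omega
  obtain ⟨c, hc⟩ := Pool.Agent.W893.PR.exists_base (hadGraph H) (1 / 4) (by norm_num)
    (fun u v huv => by
      rw [hcard]
      have h1 := sep_aux hH u v huv
      have h2 : (n : ℝ) ≤ (({w | ¬ ((hadGraph H).Adj u w ↔ (hadGraph H).Adj v w)} :
        Set ((Fin n × ℤˣ) ⊕ (Fin n × ℤˣ))).ncard : ℝ) := by exact_mod_cast h1
      push_cast
      linarith) (5 * L) (by
      rw [hcard]
      have h1 : ((4 * n : ℕ) : ℝ) ≤ (2 : ℝ) ^ L := by exact_mod_cast hL2
      have h2 : ((4 * n : ℕ) : ℝ) ^ 2 ≤ ((2 : ℝ) ^ L) ^ 2 := pow_le_pow_left₀ (Nat.cast_nonneg _) h1 2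
      have h3 : ((1 - 1 / 4 : ℝ)) ^ (5 * L) = (243 / 1024) ^ L := by
        rw [pow_mul]
        norm_num
      have h4 : (((2 : ℝ) ^ L) ^ 2) * (243 / 1024) ^ L = (243 / 256) ^ L := by
        rw [← pow_mul, mul_comm L 2, pow_mul, ← mul_pow]
        norm_num
      have h5 : (243 / 256 : ℝ) ^ L < 1 := pow_lt_one₀ (by norm_num) (by norm_num) (by omega)
      calc ((4 * n : ℕ) : ℝ) ^ 2 * (1 - 1 / 4) ^ (5 * L) ≤ ((2 : ℝ) ^ L) ^ 2 * (1 - 1 / 4) ^ (5 * L) :=
            mul_le_mul_of_nonneg_right h2 (by positivity)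
        _ = (243 / 256) ^ L := by rw [h3, h4]
        _ < 1 := h5) (by rw [hcard]; omega)
  exact iso_of_base (hadGraph H) G' (5 * L) k (by omega) c hc h

end

end Pool.Agent.N616.HD
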